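import Pool.Agent.H314.BK.Defs

set_option autoImplicit false

open MeasureTheory Complex Metric Set
open scoped ContDiff

namespace Pool.Agent.H922Z.NU

open BK

variable {n : ℕ}

/-- the support function `q₀(ζ) + Σ q_j(ζ) (ζ_j - z_j)` -/
noncomputable def PhiG (q : Option (Fin n) → En n → ℂ) (z ζ : En n) : ℂ :=
  q none ζ + ∑ j, q (some j) ζ * (ζ j - z j)

/-- the determinant with first row `q` and further rows `dbar k q` -/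
noncomputable def JacG (q : Option (Fin n) → En n → ℂ) (ζ : En n) : ℂ :=
  (Matrix.of fun i j : Option (Fin n) =>
    Option.elim i (q j ζ) (fun k => dbar k (q j) ζ)).det

/-- the weighted Cauchy-Fantappie kernel -/
noncomputable def KerG (q : Option (Fin n) → En n → ℂ) (z ζ : En n) : ℂ :=
  (q none ζ) ^ 2 * JacG q ζ / (PhiG q z ζ) ^ (n + 3)

/-- anisotropic gauge -/
noncomputable def NN (l : Fin n → ℂ) (z ζ : En n) : ℝ :=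
  ‖ζ - z‖ ^ 2 + ‖∑ k, l k * (ζ k - z k)‖

/-- T1: additive Cousin problem for two sets on a bounded pseudoconvex open set -/
def T1 : Prop := ∀ (n : ℕ) (Ω : Set (En n)), IsOpen Ω → Bornology.IsBounded Ω → PscS Ω →
  ∀ (p : En n) (r₁ r₂ : ℝ), 0 < r₁ → r₁ < r₂ → ∀ (H : En n → ℂ) (M : ℝ),
    DifferentiableOn ℂ H (Ω ∩ (ball p r₂ \ closedBall p r₁)) →
    (∀ z ∈ Ω ∩ (ball p r₂ \ closedBall p r₁), ‖H z‖ ≤ M) →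
    ∃ v₁ v₂ : En n → ℂ, DifferentiableOn ℂ v₁ (Ω ∩ ball p r₂) ∧
      DifferentiableOn ℂ v₂ (Ω \ closedBall p r₁) ∧
      ∀ z ∈ Ω ∩ (ball p r₂ \ closedBall p r₁), H z = v₁ z + v₂ z

/-- T2a: a strictly plurisubharmonic defining function -/
def T2a : Prop := ∀ (n : ℕ) (ρ : En n → ℝ), ContDiff ℝ ∞ ρ → IsCompact {z | ρ z ≤ 0} →
  (∀ z, ρ z = 0 → fderiv ℝ ρ z ≠ 0) →
  (∀ z, ρ z = 0 → ∀ w : En n, w ≠ 0 → fderiv ℝ ρ z w = 0 → fderiv ℝ ρ z (I • w) = 0 →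
    0 < Lv ρ z w) →
  ∃ r : En n → ℝ, ContDiff ℝ ∞ r ∧ (∀ z, r z < 0 ↔ ρ z < 0) ∧ (∀ z, r z = 0 ↔ ρ z = 0) ∧
    (∀ z, r z = 0 → fderiv ℝ r z ≠ 0) ∧ (∀ z, r z = 0 → ∀ w : En n, w ≠ 0 → 0 < Lv r z w)

/-- T2b: pseudoconvex neighbourhood basis -/
def T2b : Prop := ∀ (n : ℕ) (r : En n → ℝ), ContDiff ℝ ∞ r → IsCompact {z | r z ≤ 0} →
  (∀ z, r z = 0 → ∀ w : En n, w ≠ 0 → 0 < Lv r z w) →
  ∀ W : Set (En n), IsOpen W → {z | r z ≤ 0} ⊆ W →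
    ∃ Ω : Set (En n), IsOpen Ω ∧ Bornology.IsBounded Ω ∧ PscS Ω ∧ {z | r z ≤ 0} ⊆ Ω ∧ Ω ⊆ W

/-- T3: the weighted reproducing formula -/
def T3 : Prop := ∀ n : ℕ, ∃ c : ℂ, c ≠ 0 ∧ ∀ (q : Option (Fin n) → En n → ℂ),
  (∀ j, ContDiff ℝ ∞ (q j)) → ∀ Ω : Set (En n), IsOpen Ω → Bornology.IsBounded Ω →
  ∀ z ∈ Ω, (∀ ζ ∈ frontier Ω, q none ζ = 0) → (∀ ζ ∈ closure Ω, 0 < (PhiG q z ζ).re) →
  ∀ (h : En n → ℂ) (O : Set (En n)), IsOpen O → closure Ω ⊆ O → DifferentiableOn ℂ h O →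
    ∫ ζ in Ω, KerG q z ζ * h ζ = c * h z

/-- T4a: Harnack inequality for `-log ‖a‖` in a disc -/
def T4a : Prop := ∀ (a : ℂ → ℂ) (c : ℂ) (R : ℝ), DifferentiableOn ℂ a (ball c R) →
  (∀ w ∈ ball c R, a w ≠ 0) → (∀ w ∈ ball c R, ‖a w‖ ≤ 1) →
  ∀ w₁ ∈ ball c R, ∀ w₂ ∈ ball c R,
    (-Real.log ‖a w₁‖) * (R ^ 2 - ‖w₁ - c‖ ^ 2) * (R ^ 2 - ‖w₂ - c‖ ^ 2) ≤
      ((R ^ 2 - ‖w₁ - c‖ ^ 2) + 2 * R * ‖w₁ - w₂‖) ^ 2 * (-Real.log ‖a w₂‖)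

/-- T4b: logarithmic derivative at the centre -/
def T4b : Prop := ∀ (a : ℂ → ℂ) (c : ℂ) (R : ℝ), 0 < R → DifferentiableOn ℂ a (ball c R) →
  (∀ w ∈ ball c R, a w ≠ 0) → (∀ w ∈ ball c R, ‖a w‖ ≤ 1) →
    ‖deriv a c / a c‖ ≤ 2 * (-Real.log ‖a c‖) / R

/-- T5: integral of the anisotropic singularity -/
def T5 : Prop := ∀ n : ℕ, ∃ C : ℝ, 0 ≤ C ∧ ∀ (l : Fin n → ℂ) (j : Fin n) (a : ℝ), 0 < a →
  a ≤ ‖l j‖ → ∀ (z : En n) (s : ℝ), 0 < s →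
    IntegrableOn (fun ζ => ‖ζ - z‖ / (NN l z ζ) ^ (n + 1)) {ζ | NN l z ζ < s ^ 2} ∧
    ∫ ζ in {ζ | NN l z ζ < s ^ 2}, ‖ζ - z‖ / (NN l z ζ) ^ (n + 1) ≤ C / a ^ 2 * s

/-- T6: holomorphic dependence of integrals on parameters -/
def T6 : Prop := ∀ (n : ℕ) (α : Type) [MeasurableSpace α] (μ : Measure α) [IsFiniteMeasure μ]
  (U : Set (En n)) (k : En n → α → ℂ) (M : ℝ), IsOpen U →
  (∀ z ∈ U, AEStronglyMeasurable (k z) μ) →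
  (∀ᵐ a ∂μ, DifferentiableOn ℂ (fun z => k z a) U ∧ ∀ z ∈ U, ‖k z a‖ ≤ M) →
    DifferentiableOn ℂ (fun z => ∫ a, k z a ∂μ) U

/-- local geometry at a strictly pseudoconvex boundary point -/
structure Geo (r rt : En n → ℝ) (p ν : En n) (P : Fin n → Fin n → ℂ) (j₀ : Fin n)
    (R₀ R₁ a c M : ℝ) : Prop where
  sr : ContDiff ℝ ∞ r
  srt : ContDiff ℝ ∞ rt
  rp : r p = 0
  R0 : 0 < R₀
  R01 : 8 * R₀ ≤ R₁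
  R1 : R₁ ≤ 1 / 4
  a0 : 0 < a
  c0 : 0 < c
  M1 : 1 ≤ M
  nu1 : ‖ν‖ = 1
  nuj : ∀ j, j ≠ j₀ → ν j = 0
  le : ∀ x, r x ≤ rt x
  eq : ∀ x ∈ ball p R₀, rt x = r x
  pos : ∀ x ∈ closedBall p R₁, R₁ / 4 ≤ ‖x - p‖ → 0 < rt x
  dnu : ∀ x ∈ closedBall p R₁, a ≤ fderiv ℝ r x ν
  d1 : ∀ x ∈ closedBall p R₁, ‖fderiv ℝ r x‖ ≤ M
  d1t : ∀ x ∈ closedBall p R₁, ‖fderiv ℝ rt x‖ ≤ M
  d2 : ∀ x ∈ closedBall p R₁, ∀ y ∈ closedBall p R₁,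
    ‖fderiv ℝ r x - fderiv ℝ r y‖ ≤ M * ‖x - y‖
  d2t : ∀ x ∈ closedBall p R₁, ∀ y ∈ closedBall p R₁,
    ‖fderiv ℝ rt x - fderiv ℝ rt y‖ ≤ M * ‖x - y‖
  PM : ∑ j, ∑ k, ‖P j k‖ ≤ M
  levi : ∀ z ∈ closedBall p R₁, ∀ ζ ∈ closedBall p R₁, c * ‖z - ζ‖ ^ 2 ≤
    rt z - rt ζ - fderiv ℝ rt ζ (z - ζ) - (∑ j, ∑ k, P j k * (z j - ζ j) * (z k - ζ k)).re

/-- T7: existence of the local geometry -/
def T7 : Prop := ∀ (n : ℕ) (r : En n → ℝ), ContDiff ℝ ∞ r → ∀ p : En n, r p = 0 →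
  fderiv ℝ r p ≠ 0 → (∀ w : En n, w ≠ 0 → 0 < Lv r p w) →
  ∃ (rt : En n → ℝ) (ν : En n) (P : Fin n → Fin n → ℂ) (j₀ : Fin n) (R₀ R₁ a c M : ℝ),
    Geo r rt p ν P j₀ R₀ R₁ a c M

/-- the local additive statement -/
def LocalH : Prop := ∀ (n : ℕ) (r : En n → ℝ), ContDiff ℝ ∞ r → ∀ p : En n, r p = 0 →
  fderiv ℝ r p ≠ 0 → (∀ w : En n, w ≠ 0 → 0 < Lv r p w) →
  ∃ R : ℝ, 0 < R ∧ ∀ F : Set (En n), F.Nonempty → F ⊆ closedBall p R → (∀ x ∈ F, r x = 0) →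
    ∀ f : En n → ℂ, DifferentiableOn ℂ f {z | r z < 0} → (∀ z, r z < 0 → f z ≠ 0) →
      (∀ z, r z < 0 → ‖f z‖ ≤ 1) →
      ∃ (θ : ℝ) (K : ℕ) (H : En n → ℂ) (C : ℝ), 0 < θ ∧
        DifferentiableOn ℂ H {z | z ∈ ball p R ∧ r z < θ * infDist z F ^ K} ∧
        (∀ δ : ℝ, 0 < δ → ∃ M : ℝ, ∀ z ∈ ball p R, r z < θ * infDist z F ^ K →
          δ ≤ infDist z F → ‖H z‖ ≤ M) ∧
        ∀ z ∈ ball p R, r z < θ * infDist z F ^ K →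
          ∃ z', r z' < 0 ∧ ‖z' - z‖ ≤ infDist z F ∧ ‖Complex.exp (-H z)‖ ^ 2 ≤ C * ‖f z'‖

/-- the conclusion of the core statement: a zero-free bounded holomorphic function on a larger
open set, decaying to infinite order at `F` -/
def Good (ρ : En n → ℝ) (F : Set (En n)) : Prop :=
  ∃ (U : Set (En n)) (g : En n → ℂ) (c : ℝ) (K : ℕ), IsOpen U ∧ DifferentiableOn ℂ g U ∧
    (∀ z ∈ U, g z ≠ 0) ∧ 0 < c ∧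
    (∀ z, ρ z ≤ 0 → ∀ s : ℝ, 0 < s → s ≤ 1 → (∀ x ∈ F, s ≤ ‖z - x‖) →
      ball z (c * s ^ K) ⊆ U) ∧
    (∃ C : ℝ, ∀ z ∈ U, ‖g z‖ ≤ C) ∧
    ∀ N : ℕ, ∃ C : ℝ, ∀ z ∈ U, ∀ x ∈ F, ‖g z‖ ≤ C * ‖z - x‖ ^ N

/-- the core statement -/
def Core : Prop := ∀ (n : ℕ) (ρ : En n → ℝ), ContDiff ℝ ∞ ρ → IsCompact {z | ρ z ≤ 0} →
  (∀ z, ρ z = 0 → fderiv ℝ ρ z ≠ 0) →
  (∀ z, ρ z = 0 → ∀ w : En n, w ≠ 0 → fderiv ℝ ρ z w = 0 → fderiv ℝ ρ z (I • w) = 0 →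
    0 < Lv ρ z w) →
  ∀ F : Set (En n), (∀ x ∈ F, ρ x = 0) →
  ∀ f : En n → ℂ, DifferentiableOn ℂ f {z | ρ z < 0} → (∀ z, ρ z < 0 → f z ≠ 0) →
    (∃ C : ℝ, ∀ z, ρ z < 0 → ‖f z‖ ≤ C) →
    (∀ N : ℕ, ∃ C : ℝ, ∀ z, ρ z < 0 → ∀ x ∈ F, ‖f z‖ ≤ C * ‖z - x‖ ^ N) →
    Good ρ F

/-- T8: globalisation -/
def T8 : Prop := T1 → T2a → T2b → LocalH → Core

/-- T9: flat functions decay to infinite order -/
def T9 : Prop := ∀ (n : ℕ) (ρ : EuclideanSpace ℂ (Fin n) → ℝ), ContDiff ℝ ∞ ρ →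
  Bornology.IsBounded {z | ρ z < 0} → (∀ z, ρ z = 0 → fderiv ℝ ρ z ≠ 0) →
  ∀ E : Set (EuclideanSpace ℂ (Fin n)), E ⊆ frontier {z | ρ z < 0} →
  ∀ f : EuclideanSpace ℂ (Fin n) → ℂ, DifferentiableOn ℂ f {z | ρ z < 0} →
    (∀ k : ℕ, ∃ g : EuclideanSpace ℂ (Fin n) →
        ContinuousMultilinearMap ℝ (fun _ : Fin k => EuclideanSpace ℂ (Fin n)) ℂ,
      ContinuousOn g (closure {z | ρ z < 0}) ∧
      (∀ z ∈ {z | ρ z < 0}, iteratedFDeriv ℝ k f z = g z) ∧ (∀ z ∈ E, g z = 0)) →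
    ∀ N : ℕ, ∃ C : ℝ, ∀ z, ρ z < 0 → ∀ x ∈ E, ‖f z‖ ≤ C * ‖z - x‖ ^ N

/-- the final statement -/
def Final : Prop :=
  ∀ n : ℕ, 2 ≤ n → ∀ D : Set (EuclideanSpace ℂ (Fin n)),
    IsOpen D → IsConnected D → Bornology.IsBounded D →
    (∃ ρ : EuclideanSpace ℂ (Fin n) → ℝ, ContDiff ℝ ((⊤ : ℕ∞) : WithTop ℕ∞) ρ ∧
      D = {z | ρ z < 0} ∧
      (∀ z, ρ z = 0 → fderiv ℝ ρ z ≠ 0) ∧
      (∀ z, ρ z = 0 → ∀ w : EuclideanSpace ℂ (Fin n), w ≠ 0 →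
        fderiv ℝ ρ z w = 0 → fderiv ℝ ρ z (Complex.I • w) = 0 →
        0 < iteratedFDeriv ℝ 2 ρ z ![w, w] +
              iteratedFDeriv ℝ 2 ρ z ![Complex.I • w, Complex.I • w])) →
    ∀ E : Set (EuclideanSpace ℂ (Fin n)), E ⊆ frontier D → IsClosed E →
    (∃ f : EuclideanSpace ℂ (Fin n) → ℂ, DifferentiableOn ℂ f D ∧
      ContinuousOn f (closure D) ∧
      (∀ k : ℕ, ∃ g : EuclideanSpace ℂ (Fin n) →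
          ContinuousMultilinearMap ℝ (fun _ : Fin k => EuclideanSpace ℂ (Fin n)) ℂ,
        ContinuousOn g (closure D) ∧ (∀ z ∈ D, iteratedFDeriv ℝ k f z = g z) ∧
        (∀ z ∈ E, g z = 0)) ∧
      (∃ z ∈ D, f z ≠ 0) ∧
      {z | z ∈ closure D ∧ f z = 0} = E) →
    ∀ F : Set (EuclideanSpace ℂ (Fin n)), F ⊆ E → IsClosed F →
    (∃ f : EuclideanSpace ℂ (Fin n) → ℂ, DifferentiableOn ℂ f D ∧
      ContinuousOn f (closure D) ∧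
      (∀ k : ℕ, ∃ g : EuclideanSpace ℂ (Fin n) →
          ContinuousMultilinearMap ℝ (fun _ : Fin k => EuclideanSpace ℂ (Fin n)) ℂ,
        ContinuousOn g (closure D) ∧ (∀ z ∈ D, iteratedFDeriv ℝ k f z = g z) ∧
        (∀ z ∈ F, g z = 0)) ∧
      (∃ z ∈ D, f z ≠ 0) ∧
      {z | z ∈ closure D ∧ f z = 0} = F)

/-- T10: the final assembly -/
def T10 : Prop := Core → T9 → Final

end Pool.Agent.H922Z.NU
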