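import Pool.Agent.H922Z.NU.Defs

set_option autoImplicit false

open MeasureTheory Complex Metric Set
open scoped ContDiff

namespace Pool.Agent.H922Z.NU

open BK

variable {n : ℕ}

/-- coefficients of the complex gradient (times two) -/
noncomputable def lv (r : En n → ℝ) (x : En n) (j : Fin n) : ℂ :=
  (fderiv ℝ r x (Pi.single j 1) : ℝ) - I * (fderiv ℝ r x (Pi.single j I) : ℝ)

/-- the complex-linear part of the differential (times two) -/
noncomputable def ell (r : En n → ℝ) (x w : En n) : ℂ := ∑ j, lv r x j * w j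

theorem single_decomp (j : Fin n) (c : ℂ) :
    (Pi.single j c : En n) = c.re • (Pi.single j (1 : ℂ) : En n) +
      c.im • (Pi.single j I : En n) := by
  ext i
  rcases eq_or_ne i j with rfl | hij
  · simp [Complex.re_add_im]
  · simp [hij]

theorem sum_lin (L : En n →L[ℝ] ℝ) (w : En n) :
    ∑ j, (((L (Pi.single j 1) : ℝ) : ℂ) - I * (L (Pi.single j I) : ℝ)) * w j =
      (L w : ℝ) - I * (L (I • w) : ℝ) := by
  have e1 : ∀ v : En n, v = ∑ j, Pi.single j (v j) := fun v => (Finset.univ_sum_single v).symm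
  have h1 : L w = ∑ j, ((w j).re * L (Pi.single j 1) + (w j).im * L (Pi.single j I)) := by
    conv_lhs => rw [e1 w, map_sum]
    refine Finset.sum_congr rfl fun j _ => ?_
    rw [single_decomp j (w j), map_add, map_smul, map_smul]
    simp
  have h2 : L (I • w) = ∑ j, (-(w j).im * L (Pi.single j 1) + (w j).re * L (Pi.single j I)) := by
    conv_lhs => rw [e1 (I • w), map_sum]
    refine Finset.sum_congr rfl fun j _ => ?_
    rw [single_decomp j ((I • w) j), map_add, map_smul, map_smul]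
    simp
  rw [h1, h2]
  push_cast
  rw [Finset.mul_sum, ← Finset.sum_sub_distrib]
  refine Finset.sum_congr rfl fun j _ => ?_
  conv_lhs => rw [← Complex.re_add_im (w j)]
  linear_combination (-((w j).im : ℂ) * (L (Pi.single j I) : ℝ) +
    ((w j).im : ℂ) * (L (Pi.single j I) : ℝ) * 0) * Complex.I_mul_I

theorem ell_eq (r : En n → ℝ) (x w : En n) :
    ell r x w = (fderiv ℝ r x w : ℝ) - I * (fderiv ℝ r x (I • w) : ℝ) :=
  sum_lin (fderiv ℝ r x) w

theorem ell_re (r : En n → ℝ) (x w : En n) : (ell r x w).re = fderiv ℝ r x w := by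
  rw [ell_eq]; simp

theorem ell_smul (r : En n → ℝ) (x w : En n) (c : ℂ) : ell r x (c • w) = c * ell r x w := by
  unfold ell
  rw [Finset.mul_sum]
  refine Finset.sum_congr rfl fun j _ => ?_
  simp only [Pi.smul_apply, smul_eq_mul]; ring

theorem ell_add (r : En n → ℝ) (x w w' : En n) :
    ell r x (w + w') = ell r x w + ell r x w' := by
  unfold ell
  rw [← Finset.sum_add_distrib]
  refine Finset.sum_congr rfl fun j _ => ?_
  simp only [Pi.add_apply]; ring

theorem lin_norm (L : En n →L[ℝ] ℝ) (w : En n) :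
    ‖((L w : ℝ) : ℂ) - I * (L (I • w) : ℝ)‖ ≤ 2 * ‖L‖ * ‖w‖ := by
  have h1 := L.le_opNorm w
  have h2 := L.le_opNorm (I • w)
  rw [norm_smul, Complex.norm_I, one_mul] at h2
  calc _ ≤ ‖((L w : ℝ) : ℂ)‖ + ‖I * (L (I • w) : ℝ)‖ := norm_sub_le _ _
    _ = ‖L w‖ + ‖L (I • w)‖ := by simp
    _ ≤ _ := by linarith

theorem ell_norm (r : En n → ℝ) (x w : En n) :
    ‖ell r x w‖ ≤ 2 * ‖fderiv ℝ r x‖ * ‖w‖ := by
  rw [ell_eq]; exact lin_norm _ _

theorem ell_sub_norm (r r' : En n → ℝ) (x y w : En n) :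
    ‖ell r x w - ell r' y w‖ ≤ 2 * ‖fderiv ℝ r x - fderiv ℝ r' y‖ * ‖w‖ := by
  have := lin_norm (fderiv ℝ r x - fderiv ℝ r' y) w
  rw [ell_eq, ell_eq]
  convert this using 2
  simp only [ContinuousLinearMap.sub_apply]
  push_cast
  ring

theorem re_mul_ell (r : En n → ℝ) (x w : En n) (c : ℂ) :
    (c * ell r x w).re = fderiv ℝ r x (c • w) := by
  rw [← ell_smul, ell_re]

section taylor
variable {g : En n → ℝ} {p : En n} {R M : ℝ}

theorem lip_of (hg : ContDiff ℝ ∞ g) (h1 : ∀ x ∈ closedBall p R, ‖fderiv ℝ g x‖ ≤ M)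
    {x y : En n} (hx : x ∈ closedBall p R) (hy : y ∈ closedBall p R) :
    |g y - g x| ≤ M * ‖y - x‖ := by
  have hd : Differentiable ℝ g := hg.differentiable (by simp)
  exact (convex_closedBall p R).norm_image_sub_le_of_norm_fderiv_le
    (fun z _ => hd z) h1 hx hy

theorem taylor_of (hg : ContDiff ℝ ∞ g) (hM : 0 ≤ M)
    (h2 : ∀ x ∈ closedBall p R, ∀ y ∈ closedBall p R,
      ‖fderiv ℝ g x - fderiv ℝ g y‖ ≤ M * ‖x - y‖)
    {x y : En n} (hx : x ∈ closedBall p R) (hy : y ∈ closedBall p R) :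
    |g y - g x - fderiv ℝ g x (y - x)| ≤ M * ‖y - x‖ ^ 2 := by
  have hd : Differentiable ℝ g := hg.differentiable (by simp)
  have hconv : Convex ℝ (closedBall p R ∩ closedBall x ‖y - x‖) :=
    (convex_closedBall _ _).inter (convex_closedBall _ _)
  have := hconv.norm_image_sub_le_of_norm_fderiv_le' (𝕜 := ℝ) (f := g) (φ := fderiv ℝ g x)
    (C := M * ‖y - x‖) (x := x) (y := y) (fun z _ => hd z) (fun z hz => by
      refine (h2 z hz.1 x hx).trans ?_
      have := hz.2
      rw [mem_closedBall, dist_eq_norm] at this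
      gcongr) ⟨hx, mem_closedBall_self (norm_nonneg _)⟩
    ⟨hy, by rw [mem_closedBall, dist_eq_norm]⟩
  rw [Real.norm_eq_abs] at this
  calc _ ≤ M * ‖y - x‖ * ‖y - x‖ := this
    _ = _ := by ring

theorem mono_of (hg : ContDiff ℝ ∞ g) {ν : En n} {a : ℝ}
    (h1 : ∀ x ∈ closedBall p R, a ≤ fderiv ℝ g x ν) {x : En n} {s : ℝ} (hs : 0 ≤ s)
    (hx : x ∈ closedBall p R) (hy : x - (s : ℂ) • ν ∈ closedBall p R) :
    g (x - (s : ℂ) • ν) ≤ g x - a * s := by
  have hd : Differentiable ℝ g := hg.differentiable (by simp)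
  have hmem : ∀ t ∈ Icc (0 : ℝ) s, x - (t : ℂ) • ν ∈ closedBall p R := by
    intro t ht
    rcases eq_or_lt_of_le hs with h0 | hpos
    · have : t = 0 := le_antisymm (h0 ▸ ht.2) ht.1
      subst this; simpa using hx
    · have := (convex_closedBall p R) hx hy (a := 1 - t / s) (b := t / s)
        (by rw [sub_nonneg, div_le_one hpos]; exact ht.2) (div_nonneg ht.1 hs) (by ring)
      convert this using 1
      ext i
      simp only [Pi.sub_apply, Pi.smul_apply, Pi.add_apply, smul_eq_mul, real_smul]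
      have : (s : ℂ) ≠ 0 := by exact_mod_cast hpos.ne'
      push_cast
      field_simp
      ring
  have hder : ∀ t : ℝ, HasDerivAt (fun t : ℝ => g (x - (t : ℂ) • ν) + a * t)
      (-(fderiv ℝ g (x - (t : ℂ) • ν) ν) + a) t := by
    intro t
    have h2 : HasDerivAt (fun t : ℝ => x - (t : ℂ) • ν) (-ν) t := by
      have h3 : HasDerivAt (fun t : ℝ => (t : ℂ) • ν) ν t := by
        have := (Complex.ofRealCLM.hasDerivAt (x := t)).smul_const ν
        simpa using this
      simpa using h3.const_sub x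
    have h4 := (hd (x - (t : ℂ) • ν)).hasFDerivAt.comp_hasDerivAt t h2
    have h5 := (hasDerivAt_id t).const_mul a
    have h6 := h4.add h5
    simp only [map_neg, mul_one] at h6
    exact h6
  have hanti : AntitoneOn (fun t : ℝ => g (x - (t : ℂ) • ν) + a * t) (Icc 0 s) := by
    apply antitoneOn_of_deriv_nonpos (convex_Icc 0 s)
    · exact fun t _ => (hder t).continuousAt.continuousWithinAt
    · exact fun t _ => (hder t).differentiableAt.differentiableWithinAt
    · intro t ht
      rw [(hder t).deriv]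
      have := h1 _ (hmem t (interior_subset ht))
      linarith
  have := hanti (left_mem_Icc.2 hs) (right_mem_Icc.2 hs) hs
  simp only [ofReal_zero, zero_smul, sub_zero, mul_zero, add_zero] at this
  linarith

end taylor

theorem mem_cb {p x : En n} {R : ℝ} : x ∈ closedBall p R ↔ ‖x - p‖ ≤ R := by
  rw [mem_closedBall, dist_eq_norm]

theorem norm_shift {ν : En n} (hν : ‖ν‖ = 1) (x p : En n) (c : ℂ) :
    ‖x + c • ν - p‖ ≤ ‖x - p‖ + ‖c‖ := by
  have : x + c • ν - p = (x - p) + c • ν := by abel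
  rw [this]
  refine (norm_add_le _ _).trans ?_
  rw [norm_smul, hν, mul_one]

theorem norm_shift' {ν : En n} (hν : ‖ν‖ = 1) (x p : En n) {s : ℝ} (hs : 0 ≤ s) :
    ‖x - (s : ℂ) • ν - p‖ ≤ ‖x - p‖ + s := by
  have : x - (s : ℂ) • ν - p = (x - p) - (s : ℂ) • ν := by abel
  rw [this]
  refine (norm_sub_le _ _).trans ?_
  rw [norm_smul, hν, mul_one, Complex.norm_real, Real.norm_of_nonneg hs]

end Pool.Agent.H922Z.NU
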