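import Pool.Agent.H922Z.NU.L1

set_option autoImplicit false

open MeasureTheory Complex Metric Set
open scoped ContDiff ComplexConjugate

namespace Pool.Agent.H922Z.NU

open BK

variable {n : ℕ}

/-- `-log |f|` -/
noncomputable def uu (f : En n → ℂ) (x : En n) : ℝ := -Real.log ‖f x‖

/-- standing hypotheses on the function -/
structure Fn (r : En n → ℝ) (f : En n → ℂ) : Prop where
  df : DifferentiableOn ℂ f {z | r z < 0}
  ne : ∀ z, r z < 0 → f z ≠ 0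
  le : ∀ z, r z < 0 → ‖f z‖ ≤ 1

variable {r rt : En n → ℝ} {p ν : En n} {P : Fin n → Fin n → ℂ} {j₀ : Fin n}
  {R₀ R₁ a c M : ℝ} {f : En n → ℂ}

theorem Fn.u0 (hf : Fn r f) {x : En n} (hx : r x < 0) : 0 ≤ uu f x := by
  unfold uu
  have := Real.log_nonpos (norm_nonneg _) (hf.le x hx)
  linarith

theorem Geo.R1pos (G : Geo r rt p ν P j₀ R₀ R₁ a c M) : 0 < R₁ := by
  have := G.R0; have := G.R01; linarith

theorem Geo.Mpos (G : Geo r rt p ν P j₀ R₀ R₁ a c M) : 0 < M := by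
  have := G.M1; linarith

theorem Geo.aM (G : Geo r rt p ν P j₀ R₀ R₁ a c M) : a ≤ M := by
  have h0 : p ∈ closedBall p R₁ := mem_closedBall_self G.R1pos.le
  have h1 := G.dnu p h0
  have h2 := (fderiv ℝ r p).le_opNorm ν
  rw [G.nu1, mul_one] at h2
  have h3 := G.d1 p h0
  have h4 := le_abs_self (fderiv ℝ r p ν)
  rw [Real.norm_eq_abs] at h2
  linarith

theorem Geo.absr (G : Geo r rt p ν P j₀ R₀ R₁ a c M) {x : En n} (hx : ‖x - p‖ ≤ R₁) :
    |r x| ≤ M * ‖x - p‖ := by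
  have := lip_of G.sr G.d1 (mem_closedBall_self G.R1pos.le) (mem_cb.2 hx)
  rwa [G.rp, sub_zero] at this

theorem Geo.open (G : Geo r rt p ν P j₀ R₀ R₁ a c M) : IsOpen {z | r z < 0} :=
  isOpen_lt G.sr.continuous continuous_const

theorem line_diff (G : Geo r rt p ν P j₀ R₀ R₁ a c M) (hf : Fn r f) (x w : En n) (S : Set ℂ)
    (hS : ∀ l ∈ S, r (x + l • w) < 0) : DifferentiableOn ℂ (fun l : ℂ => f (x + l • w)) S := by
  intro l hl
  apply DifferentiableAt.differentiableWithinAt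
  have h1 : DifferentiableAt ℂ f (x + l • w) :=
    (hf.df _ (hS l hl)).differentiableAt (G.open.mem_nhds (hS l hl))
  have h2 : DifferentiableAt ℂ (fun l : ℂ => x + l • w) l := by fun_prop
  exact DifferentiableAt.comp (g := f) l h1 h2

theorem disc_id (L l : ℂ) (δ Mp : ℝ) (hMp : 0 < Mp) :
    (‖L‖ ^ 2 / (4 * Mp ^ 2) + δ / Mp) - ‖l - (-(conj L) / (2 * Mp))‖ ^ 2 =
      (δ - (l * L).re - Mp * ‖l‖ ^ 2) / Mp := by
  have h : l - (-(conj L) / (2 * Mp)) = l + (conj L) * ((1 / (2 * Mp) : ℝ) : ℂ) := by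
    push_cast; ring
  rw [h]
  simp only [Complex.sq_norm, Complex.normSq_apply, add_re, add_im, mul_re, mul_im, conj_re,
    conj_im, ofReal_re, ofReal_im]
  field_simp
  ring

/-- Harnack inequality along the transversal complex line -/
theorem lineH (h4 : T4a) (G : Geo r rt p ν P j₀ R₀ R₁ a c M) (hf : Fn r f) {x : En n}
    (hx : ‖x - p‖ ≤ R₁ / 2) (hr : r x < 0) {s₁ s₂ : ℝ} (h1 : 0 ≤ s₁) (h2 : 0 ≤ s₂)
    (h1' : s₁ ≤ a * R₁ / (16 * M)) (h2' : s₂ ≤ a * R₁ / (16 * M)) :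
    ∃ Q₁ Q₂ : ℝ, -r x + a * s₁ / 2 ≤ Q₁ ∧ Q₁ ≤ -r x + M * s₁ ∧ -r x + a * s₂ / 2 ≤ Q₂ ∧
      uu f (x - (s₁ : ℂ) • ν) * Q₁ * Q₂ ≤
        (Q₁ + 8 * M / R₁ * |s₁ - s₂|) ^ 2 * uu f (x - (s₂ : ℂ) • ν) := by
  have hR1 := G.R1pos
  have hM := G.Mpos
  have hR14 := G.R1
  have ha := G.a0
  set Mp := 8 * M / R₁ with hMp
  have hMp0 : 0 < Mp := by positivity
  have hMR : Mp * R₁ = 8 * M := by rw [hMp]; field_simp
  have hMM : M ≤ Mp := by nlinarith
  set L := ell r x ν with hL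
  set δ := -r x with hδ
  have hδ0 : 0 < δ := by linarith
  have hxc : x ∈ closedBall p R₁ := mem_cb.2 (by linarith)
  have hδM : δ ≤ M * (R₁ / 2) := by
    have h := G.absr (x := x) (by linarith)
    have h' := neg_abs_le (r x)
    have : M * ‖x - p‖ ≤ M * (R₁ / 2) := by gcongr
    linarith
  have hLn : ‖L‖ ≤ 2 * M := by
    have := ell_norm r x ν
    rw [G.nu1, mul_one] at this
    have h' := G.d1 x hxc
    linarith
  have hLre : a ≤ L.re := by rw [hL, ell_re]; exact G.dnu x hxc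
  have hLre' : L.re ≤ M := by
    rw [hL, ell_re]
    have h2 := (fderiv ℝ r x).le_opNorm ν
    rw [G.nu1, mul_one, Real.norm_eq_abs] at h2
    have := le_abs_self (fderiv ℝ r x ν)
    have := G.d1 x hxc
    linarith
  set c₀ : ℂ := -(conj L) / (2 * Mp) with hc₀
  set ϱ := Real.sqrt (‖L‖ ^ 2 / (4 * Mp ^ 2) + δ / Mp) with hϱ
  have hϱ2 : ϱ ^ 2 = ‖L‖ ^ 2 / (4 * Mp ^ 2) + δ / Mp := Real.sq_sqrt (by positivity)
  have hϱ0 : 0 ≤ ϱ := Real.sqrt_nonneg _
  have hid : ∀ l : ℂ, ϱ ^ 2 - ‖l - c₀‖ ^ 2 = (δ - (l * L).re - Mp * ‖l‖ ^ 2) / Mp := by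
    intro l; rw [hϱ2]; exact disc_id L l δ Mp hMp0
  have hϱ1 : 2 * ϱ ≤ 1 := by
    have e1 : ‖L‖ ^ 2 / (4 * Mp ^ 2) ≤ R₁ ^ 2 / 64 := by
      rw [div_le_div_iff₀ (by positivity) (by positivity)]
      have : ‖L‖ ^ 2 ≤ (2 * M) ^ 2 := by gcongr
      nlinarith
    have e2 : δ / Mp ≤ R₁ ^ 2 / 16 := by
      rw [div_le_div_iff₀ (by positivity) (by positivity)]
      nlinarith
    nlinarith
  have hin : ∀ l ∈ ball c₀ ϱ, r (x + l • ν) < 0 := by
    intro l hl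
    rw [mem_ball, dist_eq_norm] at hl
    have e1 : 0 < ϱ ^ 2 - ‖l - c₀‖ ^ 2 := by
      have := norm_nonneg (l - c₀)
      nlinarith
    rw [hid] at e1
    have e2 : 0 < δ - (l * L).re - Mp * ‖l‖ ^ 2 := by
      have := mul_pos e1 hMp0
      rwa [div_mul_cancel₀ _ hMp0.ne'] at this
    have e3 : |(l * L).re| ≤ ‖l‖ * (2 * M) := by
      refine (Complex.abs_re_le_norm _).trans ?_
      rw [norm_mul]; gcongr
    have e4 : ‖l‖ ≤ R₁ / 2 := by
      by_contra hcon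
      push Not at hcon
      have e5 := neg_abs_le (l * L).re
      have e6 : Mp * ‖l‖ ^ 2 ≥ 4 * M * ‖l‖ := by
        have : Mp * ‖l‖ ≥ 4 * M := by nlinarith
        nlinarith [norm_nonneg l]
      nlinarith
    have e5 : x + l • ν ∈ closedBall p R₁ := mem_cb.2 (by
      have := norm_shift G.nu1 x p l; linarith)
    have e6 := taylor_of G.sr hM.le G.d2 hxc e5
    rw [add_sub_cancel_left, norm_smul, G.nu1, mul_one, ← re_mul_ell] at e6
    have e7 := le_abs_self (r (x + l • ν) - r x - (l * ell r x ν).re)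
    have e8 : M * ‖l‖ ^ 2 ≤ Mp * ‖l‖ ^ 2 := by gcongr
    linarith
  have hQ : ∀ s : ℝ, 0 ≤ s → s ≤ a * R₁ / (16 * M) →
      δ + a * s / 2 ≤ δ + s * L.re - Mp * s ^ 2 ∧
      ϱ ^ 2 - ‖(-(s : ℂ)) - c₀‖ ^ 2 = (δ + s * L.re - Mp * s ^ 2) / Mp ∧
      (-(s : ℂ)) ∈ ball c₀ ϱ := by
    intro s hs hs'
    have e0 : Mp * s ≤ a / 2 := by
      calc Mp * s ≤ Mp * (a * R₁ / (16 * M)) := by gcongr
        _ = a / 2 := by rw [hMp]; field_simp; ring
    have e1 : δ + a * s / 2 ≤ δ + s * L.re - Mp * s ^ 2 := by nlinarith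
    have e2 : ϱ ^ 2 - ‖(-(s : ℂ)) - c₀‖ ^ 2 = (δ + s * L.re - Mp * s ^ 2) / Mp := by
      rw [hid]
      congr 1
      simp [sq_abs]
    refine ⟨e1, e2, ?_⟩
    rw [mem_ball, dist_eq_norm]
    have e3 : 0 < (δ + s * L.re - Mp * s ^ 2) / Mp := by
      apply div_pos _ hMp0
      have : 0 ≤ a * s / 2 := by positivity
      linarith
    rw [← e2] at e3
    exact lt_of_pow_lt_pow_left₀ 2 hϱ0 (by linarith)
  obtain ⟨a1, b1, c1⟩ := hQ s₁ h1 h1'
  obtain ⟨a2, b2, c2⟩ := hQ s₂ h2 h2'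
  have key := h4 (fun l : ℂ => f (x + l • ν)) c₀ ϱ (line_diff G hf x ν _ hin)
    (fun w hw => hf.ne _ (hin w hw)) (fun w hw => hf.le _ (hin w hw)) _ c1 _ c2
  rw [b1, b2] at key
  have en : ‖-(s₁ : ℂ) - -(s₂ : ℂ)‖ = |s₁ - s₂| := by
    have : -(s₁ : ℂ) - -(s₂ : ℂ) = ((-(s₁ - s₂) : ℝ) : ℂ) := by push_cast; ring
    rw [this, Complex.norm_real, Real.norm_eq_abs, abs_neg]
  rw [en] at key
  simp only [neg_smul, ← sub_eq_add_neg] at key
  refine ⟨δ + s₁ * L.re - Mp * s₁ ^ 2, δ + s₂ * L.re - Mp * s₂ ^ 2, a1, ?_, a2, ?_⟩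
  · have : 0 ≤ Mp * s₁ ^ 2 := by positivity
    nlinarith
  · set Q₁ := δ + s₁ * L.re - Mp * s₁ ^ 2
    set Q₂ := δ + s₂ * L.re - Mp * s₂ ^ 2
    have hu2 : 0 ≤ uu f (x - (s₂ : ℂ) • ν) := by
      apply hf.u0
      have := hin _ c2
      simpa [sub_eq_add_neg] using this
    have hQ1 : 0 ≤ Q₁ := by
      have : 0 ≤ a * s₁ / 2 := by positivity
      linarith
    change uu f (x - (s₁ : ℂ) • ν) * (Q₁ / Mp) * (Q₂ / Mp) ≤
      (Q₁ / Mp + 2 * ϱ * |s₁ - s₂|) ^ 2 * uu f (x - (s₂ : ℂ) • ν) at key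
    have e1 : uu f (x - (s₁ : ℂ) • ν) * Q₁ * Q₂ =
        Mp ^ 2 * (uu f (x - (s₁ : ℂ) • ν) * (Q₁ / Mp) * (Q₂ / Mp)) := by field_simp
    have e2 : Mp ^ 2 * ((Q₁ / Mp + 2 * ϱ * |s₁ - s₂|) ^ 2 * uu f (x - (s₂ : ℂ) • ν)) =
        (Q₁ + Mp * (2 * ϱ * |s₁ - s₂|)) ^ 2 * uu f (x - (s₂ : ℂ) • ν) := by field_simp
    rw [e1]
    refine (mul_le_mul_of_nonneg_left key (by positivity)).trans ?_
    rw [e2]
    have e3 : 2 * ϱ * |s₁ - s₂| ≤ |s₁ - s₂| := by
      have := abs_nonneg (s₁ - s₂)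
      nlinarith
    gcongr

/-- going down -/
theorem downH (h4 : T4a) (G : Geo r rt p ν P j₀ R₀ R₁ a c M) (hf : Fn r f) {x : En n}
    (hx : ‖x - p‖ ≤ R₁ / 2) (hr : r x < 0) {s : ℝ} (h1 : 0 ≤ s)
    (h1' : s ≤ a * R₁ / (16 * M)) :
    uu f x * (-r x) ≤ (16 * M / (R₁ * a)) * (-r x + 8 * M / R₁ * s) * uu f (x - (s : ℂ) • ν) := by
  have hR1 := G.R1pos
  have hM := G.Mpos
  have hR14 := G.R1
  have ha := G.a0
  have haM := G.aM
  obtain ⟨Q₁, Q₂, a1, b1, a2, key⟩ := lineH h4 G hf hx hr le_rfl h1 (by positivity) h1'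
  simp only [mul_zero, zero_div, add_zero] at a1 b1
  have hQ : Q₁ = -r x := le_antisymm b1 a1
  rw [hQ] at key
  simp only [ofReal_zero, zero_smul, sub_zero, zero_sub, abs_neg, abs_of_nonneg h1] at key
  have hs : s ≤ R₁ / 2 := by
    refine h1'.trans ?_
    rw [div_le_div_iff₀ (by positivity) (by positivity)]
    nlinarith
  have hr2 : r (x - (s : ℂ) • ν) < 0 := by
    have := mono_of G.sr G.dnu h1 (mem_cb.2 (by linarith : ‖x - p‖ ≤ R₁))
      (mem_cb.2 (by have := norm_shift' G.nu1 x p h1; linarith))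
    have : 0 ≤ a * s := by positivity
    linarith
  have hu1 := hf.u0 hr
  have hu2 := hf.u0 hr2
  set δ := -r x
  have hδ : 0 < δ := by simp only [δ]; linarith
  set Mp := 8 * M / R₁ with hMp
  have hMR : Mp * R₁ = 8 * M := by rw [hMp]; field_simp
  have hMp0 : 0 < Mp := by positivity
  have hK : 16 * M / (R₁ * a) = 2 * Mp / a := by rw [hMp]; field_simp; ring
  rw [hK]
  have hMa : a ≤ 2 * Mp := by nlinarith
  have e1 : δ + Mp * s ≤ 2 * Mp / a * Q₂ := by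
    have : δ + Mp * s ≤ 2 * Mp / a * (δ + a * s / 2) := by
      have e : 2 * Mp / a * (δ + a * s / 2) = 2 * Mp / a * δ + Mp * s := by field_simp
      have e' : 1 ≤ 2 * Mp / a := by rw [le_div_iff₀ ha]; linarith
      nlinarith
    refine this.trans ?_
    gcongr
  have hQ2 : 0 < Q₂ := by
    have : 0 ≤ a * s / 2 := by positivity
    linarith
  have e2 : uu f x * δ * Q₂ ≤ (2 * Mp / a * (δ + Mp * s) * uu f (x - (s : ℂ) • ν)) * Q₂ := by
    refine key.trans ?_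
    have : (δ + Mp * s) ^ 2 ≤ (δ + Mp * s) * (2 * Mp / a * Q₂) := by
      rw [sq]; gcongr
    calc _ ≤ (δ + Mp * s) * (2 * Mp / a * Q₂) * uu f (x - (s : ℂ) • ν) := by gcongr
      _ = _ := by ring
  exact le_of_mul_le_mul_right e2 hQ2

/-- going up -/
theorem upH (h4 : T4a) (G : Geo r rt p ν P j₀ R₀ R₁ a c M) (hf : Fn r f) {x : En n}
    (hx : ‖x - p‖ ≤ R₁ / 2) (hr : r x < 0) {s : ℝ} (h1 : 0 ≤ s)
    (h1' : s ≤ a * R₁ / (16 * M)) :
    uu f (x - (s : ℂ) • ν) * (-r x) ≤ (1 + 16 * M / (R₁ * a)) ^ 2 * (-r x + M * s) * uu f x := by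
  have hR1 := G.R1pos
  have hM := G.Mpos
  have hR14 := G.R1
  have ha := G.a0
  have haM := G.aM
  obtain ⟨Q₁, Q₂, a1, b1, a2, key⟩ := lineH h4 G hf hx hr h1 le_rfl h1' (by positivity)
  simp only [mul_zero, zero_div, add_zero] at a2
  simp only [ofReal_zero, zero_smul, sub_zero, abs_of_nonneg h1] at key
  have hs : s ≤ R₁ / 2 := by
    refine h1'.trans ?_
    rw [div_le_div_iff₀ (by positivity) (by positivity)]
    nlinarith
  have hr2 : r (x - (s : ℂ) • ν) < 0 := by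
    have := mono_of G.sr G.dnu h1 (mem_cb.2 (by linarith : ‖x - p‖ ≤ R₁))
      (mem_cb.2 (by have := norm_shift' G.nu1 x p h1; linarith))
    have : 0 ≤ a * s := by positivity
    linarith
  have hu1 := hf.u0 hr
  have hu2 := hf.u0 hr2
  set δ := -r x
  have hδ : 0 < δ := by simp only [δ]; linarith
  set Mp := 8 * M / R₁ with hMp
  have hMp0 : 0 < Mp := by positivity
  have hK : 16 * M / (R₁ * a) = 2 * Mp / a := by rw [hMp]; field_simp; ring
  rw [hK]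
  have hQ1 : 0 < Q₁ := by
    have : 0 ≤ a * s / 2 := by positivity
    linarith
  have e1 : Q₁ + Mp * s ≤ (1 + 2 * Mp / a) * Q₁ := by
    have e : Mp * s = 2 * Mp / a * (a * s / 2) := by field_simp
    have e' : 2 * Mp / a * (a * s / 2) ≤ 2 * Mp / a * Q₁ := by gcongr; linarith
    nlinarith
  have e2 : uu f (x - (s : ℂ) • ν) * δ * Q₁ ≤
      ((1 + 2 * Mp / a) ^ 2 * (δ + M * s) * uu f x) * Q₁ := by
    calc uu f (x - (s : ℂ) • ν) * δ * Q₁ = uu f (x - (s : ℂ) • ν) * Q₁ * δ := by ring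
      _ ≤ uu f (x - (s : ℂ) • ν) * Q₁ * Q₂ := by gcongr
      _ ≤ (Q₁ + Mp * s) ^ 2 * uu f x := key
      _ ≤ ((1 + 2 * Mp / a) * Q₁) ^ 2 * uu f x := by gcongr
      _ = ((1 + 2 * Mp / a) ^ 2 * Q₁ * uu f x) * Q₁ := by ring
      _ ≤ _ := by gcongr
  exact le_of_mul_le_mul_right e2 hQ1

theorem Geo.sstar (G : Geo r rt p ν P j₀ R₀ R₁ a c M) : a * R₁ / (16 * M) ≤ R₁ / 16 := by
  have hR1 := G.R1pos
  have hM := G.Mpos
  have haM := G.aM
  rw [div_le_div_iff₀ (by positivity) (by positivity)]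
  nlinarith

/-- absolute bound -/
theorem B1 (h4 : T4a) (G : Geo r rt p ν P j₀ R₀ R₁ a c M) (hf : Fn r f) :
    ∃ C : ℝ, 0 ≤ C ∧ ∀ x, ‖x - p‖ ≤ R₁ / 2 → r x < 0 → uu f x * (-r x) ≤ C := by
  have hR1 := G.R1pos
  have hM := G.Mpos
  have ha := G.a0
  set s := a * R₁ / (16 * M) with hs
  have hs0 : 0 < s := by positivity
  have hs1 : s ≤ R₁ / 16 := G.sstar
  have hK : IsCompact (closedBall p R₁ ∩ {x | r x ≤ -(a * s)}) :=
    (isCompact_closedBall p R₁).inter_right (isClosed_le G.sr.continuous continuous_const)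
  have hsub : closedBall p R₁ ∩ {x | r x ≤ -(a * s)} ⊆ {z | r z < 0} := by
    intro x hx
    have h1 : r x ≤ -(a * s) := hx.2
    have h2 : 0 < a * s := by positivity
    show r x < 0
    linarith
  have hcont : ContinuousOn (uu f) (closedBall p R₁ ∩ {x | r x ≤ -(a * s)}) := by
    unfold uu
    refine ContinuousOn.neg (ContinuousOn.log ?_ ?_)
    · exact (hf.df.continuousOn.mono hsub).norm
    · intro x hx
      exact norm_ne_zero_iff.2 (hf.ne x (hsub hx))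
  obtain ⟨C, hC⟩ := hK.exists_bound_of_continuousOn hcont
  refine ⟨(16 * M / (R₁ * a)) * (M * R₁ + 8 * M / R₁ * s) * |C|, by positivity, ?_⟩
  intro x hx hr
  refine (downH h4 G hf hx hr hs0.le le_rfl).trans ?_
  have hm : x - (s : ℂ) • ν ∈ closedBall p R₁ :=
    mem_cb.2 (by have := norm_shift' G.nu1 x p hs0.le; linarith)
  have hr2 := mono_of G.sr G.dnu hs0.le (mem_cb.2 (by linarith : ‖x - p‖ ≤ R₁)) hm
  have h1 := hC _ ⟨hm, show r _ ≤ -(a * s) by linarith⟩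
  have h2 : uu f (x - (s : ℂ) • ν) ≤ |C| :=
    (le_abs_self _).trans ((Real.norm_eq_abs _ ▸ h1).trans (le_abs_self C))
  have h3 : -r x ≤ M * R₁ := by
    have h := G.absr (x := x) (by linarith)
    have h' := neg_abs_le (r x)
    have : M * ‖x - p‖ ≤ M * R₁ := by gcongr; linarith
    linarith
  have h5 : 0 ≤ uu f (x - (s : ℂ) • ν) := hf.u0 (by
    have : 0 < a * s := by positivity
    linarith)
  gcongr

/-- the holomorphic function `-∂_ν f / f` -/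
noncomputable def hh (f : En n → ℂ) (ν : En n) (x : En n) : ℂ := -(fderiv ℂ f x ν / f x)

theorem hh_bound (h4 : T4b) (G : Geo r rt p ν P j₀ R₀ R₁ a c M) (hf : Fn r f) {x : En n}
    (hx : ‖x - p‖ ≤ R₁ / 2) (hr : r x < 0) : ‖hh f ν x‖ * (-r x) ≤ 2 * M * uu f x := by
  have hR1 := G.R1pos
  have hM := G.Mpos
  set δ := -r x with hδ
  have hδ0 : 0 < δ := by linarith
  have hδM : δ ≤ M * (R₁ / 2) := by
    have h := G.absr (x := x) (by linarith)
    have h' := neg_abs_le (r x)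
    have : M * ‖x - p‖ ≤ M * (R₁ / 2) := by gcongr
    linarith
  have hin : ∀ l ∈ ball (0 : ℂ) (δ / M), r (x + l • ν) < 0 := by
    intro l hl
    rw [mem_ball_zero_iff, lt_div_iff₀ hM] at hl
    have e4 : ‖l‖ ≤ R₁ / 2 := by nlinarith
    have e5 : x + l • ν ∈ closedBall p R₁ := mem_cb.2 (by
      have := norm_shift G.nu1 x p l; linarith)
    have e6 := lip_of G.sr G.d1 (mem_cb.2 (by linarith : ‖x - p‖ ≤ R₁)) e5
    rw [add_sub_cancel_left, norm_smul, G.nu1, mul_one] at e6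
    have e7 := le_abs_self (r (x + l • ν) - r x)
    linarith
  have key := h4 (fun l : ℂ => f (x + l • ν)) 0 (δ / M) (by positivity)
    (line_diff G hf x ν _ hin) (fun w hw => hf.ne _ (hin w hw)) (fun w hw => hf.le _ (hin w hw))
  have hd : deriv (fun l : ℂ => f (x + l • ν)) 0 = fderiv ℂ f x ν := by
    have h1 : HasFDerivAt f (fderiv ℂ f x) (x + (0 : ℂ) • ν) := by
      simpa using ((hf.df _ hr).differentiableAt (G.open.mem_nhds hr)).hasFDerivAt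
    have h2 : HasDerivAt (fun l : ℂ => x + l • ν) ν 0 := by
      simpa using ((hasDerivAt_id (0 : ℂ)).smul_const ν).const_add x
    exact (h1.comp_hasDerivAt (0 : ℂ) h2).deriv
  rw [hd] at key
  simp only [zero_smul, add_zero] at key
  unfold hh uu
  rw [norm_neg]
  rw [le_div_iff₀ (by positivity)] at key
  have e : ‖fderiv ℂ f x ν / f x‖ * δ = M * (‖fderiv ℂ f x ν / f x‖ * (δ / M)) := by field_simp
  rw [e]
  calc _ ≤ M * (2 * -Real.log ‖f x‖) := by gcongr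
    _ = _ := by ring

end Pool.Agent.H922Z.NU
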