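import Pool.Agent.H922Z.NU.L2

set_option autoImplicit false

open MeasureTheory Complex Metric Set
open scoped ContDiff ComplexConjugate

namespace Pool.Agent.H922Z.NU

open BK

variable {n : ℕ} {r rt : En n → ℝ} {p ν : En n} {P : Fin n → Fin n → ℂ} {j₀ : Fin n}
  {R₀ R₁ a c M : ℝ} {f : En n → ℂ}

theorem horiz (h4 : T4a) (G : Geo r rt p ν P j₀ R₀ R₁ a c M) (hf : Fn r f) {z ζ : En n}
    {m s : ℝ} (hz : ‖z - p‖ ≤ R₀ / 2) (hm0 : 0 < m) (hrz : r z ≤ m) (he : ‖ζ - z‖ ^ 2 ≤ m)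
    (hl : ‖ell r z (ζ - z)‖ ≤ m) (hm : m ≤ (R₁ / 4) ^ 2) (hs : a * s = (8 + 16 * M) * m)
    (hs0 : 0 ≤ s) (hs1 : s ≤ a * R₁ / (16 * M)) :
    uu f (ζ - (s : ℂ) • ν) ≤ 5 * uu f (z - (s : ℂ) • ν) := by
  have hR1 := G.R1pos
  have hM := G.Mpos
  have hR14 := G.R1
  have ha := G.a0
  have hR01 := G.R01
  have hss := G.sstar
  have he' : ‖ζ - z‖ ≤ R₁ / 4 :=
    (sq_le_sq₀ (norm_nonneg _) (by positivity)).1 (he.trans hm)
  have hMs : 4 * M * s ≤ a := by
    have h1 : s * (16 * M) ≤ a * R₁ := by rwa [le_div_iff₀ (by positivity)] at hs1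
    have h2 : a * R₁ ≤ a * (1 / 4) := by gcongr
    linarith
  have hin : ∀ l ∈ ball (0 : ℂ) 2, r (z - (s : ℂ) • ν + l • (ζ - z)) < 0 := by
    intro l hl
    rw [mem_ball_zero_iff] at hl
    have hw : ‖-((s : ℂ) • ν) + l • (ζ - z)‖ ≤ s + 2 * ‖ζ - z‖ := by
      refine (norm_add_le _ _).trans ?_
      rw [norm_neg, norm_smul, norm_smul, G.nu1, mul_one, Complex.norm_real,
        Real.norm_of_nonneg hs0]
      gcongr
    have e0 : z - (s : ℂ) • ν + l • (ζ - z) - z = -((s : ℂ) • ν) + l • (ζ - z) := by abel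
    have e5 : z - (s : ℂ) • ν + l • (ζ - z) ∈ closedBall p R₁ := by
      rw [mem_cb]
      have : z - (s : ℂ) • ν + l • (ζ - z) - p = (z - p) + (-((s : ℂ) • ν) + l • (ζ - z)) := by
        abel
      rw [this]
      refine (norm_add_le _ _).trans ?_
      linarith
    have hzc : z ∈ closedBall p R₁ := mem_cb.2 (by linarith)
    have e6 := taylor_of G.sr hM.le G.d2 hzc e5
    rw [e0] at e6
    have e7 : fderiv ℝ r z (-((s : ℂ) • ν) + l • (ζ - z)) ≤ -(a * s) + 2 * m := by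
      rw [map_add, map_neg, ← re_mul_ell r z (ζ - z) l]
      have h1 : fderiv ℝ r z ((s : ℂ) • ν) = s * fderiv ℝ r z ν := by
        rw [Complex.coe_smul, map_smul, smul_eq_mul]
      have h2 := G.dnu z hzc
      have h3 : (l * ell r z (ζ - z)).re ≤ 2 * m := by
        refine (Complex.re_le_norm _).trans ?_
        rw [norm_mul]
        gcongr
      rw [h1]
      nlinarith
    have e8 : ‖-((s : ℂ) • ν) + l • (ζ - z)‖ ^ 2 ≤ 2 * s ^ 2 + 8 * m := by
      have : ‖-((s : ℂ) • ν) + l • (ζ - z)‖ ^ 2 ≤ (s + 2 * ‖ζ - z‖) ^ 2 := by gcongr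
      nlinarith [sq_nonneg (s - 2 * ‖ζ - z‖)]
    have e9 := le_abs_self (r (z - (s : ℂ) • ν + l • (ζ - z)) - r z -
      fderiv ℝ r z (-((s : ℂ) • ν) + l • (ζ - z)))
    have e10 : M * ‖-((s : ℂ) • ν) + l • (ζ - z)‖ ^ 2 ≤ M * (2 * s ^ 2 + 8 * m) := by gcongr
    have e11 : M * (2 * s ^ 2) ≤ a * s / 2 := by nlinarith
    nlinarith
  have key := h4 (fun l : ℂ => f (z - (s : ℂ) • ν + l • (ζ - z))) 0 2
    (line_diff G hf _ _ _ hin) (fun w hw => hf.ne _ (hin w hw)) (fun w hw => hf.le _ (hin w hw))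
    1 (by simp) 0 (by simp)
  have e1 : z - (s : ℂ) • ν + (1 : ℂ) • (ζ - z) = ζ - (s : ℂ) • ν := by
    rw [one_smul]; abel
  simp only [e1, zero_smul, add_zero, sub_zero, norm_one, norm_zero] at key
  have h0 : 0 ≤ uu f (z - (s : ℂ) • ν) := by
    apply hf.u0
    simpa using hin 0 (by simp)
  unfold uu at h0 ⊢
  nlinarith

theorem B2 (h4 : T4a) (G : Geo r rt p ν P j₀ R₀ R₁ a c M) (hf : Fn r f) :
    ∃ C m₀ : ℝ, 0 ≤ C ∧ 0 < m₀ ∧ ∀ (z ζ : En n) (T m : ℝ), ‖z - p‖ ≤ R₀ / 2 → 0 < T →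
      r z ≤ a / 2 * T → r ζ < 0 → -r (z - (T : ℂ) • ν) ≤ m → T ≤ R₁ / 2 → -r ζ ≤ m →
      ‖ζ - z‖ ^ 2 ≤ m → ‖ell r z (ζ - z)‖ ≤ m → m ≤ m₀ →
      uu f ζ * (-r ζ) * (-r (z - (T : ℂ) • ν)) ≤ C * m ^ 2 * uu f (z - (T : ℂ) • ν) := by
  have hR1 := G.R1pos
  have hM := G.Mpos
  have hR14 := G.R1
  have ha := G.a0
  have hR01 := G.R01
  have hss := G.sstar
  have hR0 := G.R0
  set C₁ := (8 + 16 * M) / a with hC₁
  have hC10 : 0 < C₁ := by positivity
  set ss := a * R₁ / (16 * M) with hssd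
  have hss0 : 0 < ss := by positivity
  set K₁ := 16 * M / (R₁ * a) with hK₁
  have hK10 : 0 < K₁ := by positivity
  refine ⟨K₁ * (1 + 8 * M / R₁ * C₁) * 5 * ((1 + K₁) ^ 2 * (1 + M * C₁)),
    min ((R₁ / 4) ^ 2) (ss / C₁), by positivity, by positivity, ?_⟩
  intro z ζ T m hz hT hrz hrζ hτ hTR hδ he hl hm
  have hm1 : m ≤ (R₁ / 4) ^ 2 := hm.trans (min_le_left _ _)
  have hm2 : m ≤ ss / C₁ := hm.trans (min_le_right _ _)
  have hzc : z ∈ closedBall p R₁ := mem_cb.2 (by linarith)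
  have hz'n := norm_shift' G.nu1 z p hT.le
  have hmono := mono_of G.sr G.dnu hT.le hzc (mem_cb.2 (by linarith))
  set τ := -r (z - (T : ℂ) • ν) with hτd
  have hτ1 : a / 2 * T ≤ τ := by linarith
  have hτ0 : 0 < τ := lt_of_lt_of_le (by positivity) hτ1
  have hm0 : 0 < m := lt_of_lt_of_le hτ0 hτ
  set s := C₁ * m with hsd
  have hs0 : 0 < s := by positivity
  have hs1 : s ≤ ss := by rw [le_div_iff₀ hC10] at hm2; linarith
  have has : a * s = (8 + 16 * M) * m := by rw [hsd, hC₁]; field_simp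
  have hTs : T ≤ s := by
    have h1 : a * T ≤ 2 * m := by linarith
    have h2 : 2 * m ≤ (8 + 16 * M) * m := by gcongr; linarith
    have h3 : a * T ≤ a * s := by linarith
    exact le_of_mul_le_mul_left h3 ha
  have he' : ‖ζ - z‖ ≤ R₁ / 4 := by
    have := he.trans hm1
    exact (sq_le_sq₀ (norm_nonneg _) (by positivity)).1 this
  have hζ : ‖ζ - p‖ ≤ R₁ / 2 := by
    have : ζ - p = (ζ - z) + (z - p) := by abel
    rw [this]
    refine (norm_add_le _ _).trans ?_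
    linarith
  have k1 := downH h4 G hf hζ hrζ hs0.le hs1
  have k2 := horiz h4 G hf hz hm0 (by linarith) he hl hm1 has hs0.le hs1
  have k3 := upH h4 G hf (x := z - (T : ℂ) • ν) (s := s - T) (by linarith) (by linarith)
    (by linarith) (by linarith)
  have e1 : z - (T : ℂ) • ν - ((s - T : ℝ) : ℂ) • ν = z - (s : ℂ) • ν := by
    push_cast
    rw [sub_smul]; abel
  rw [e1] at k3
  have hu' : 0 ≤ uu f (z - (T : ℂ) • ν) := hf.u0 (by linarith)
  have hus : 0 ≤ uu f (z - (s : ℂ) • ν) := by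
    apply hf.u0
    have := mono_of G.sr G.dnu hs0.le hzc
      (mem_cb.2 (by have := norm_shift' G.nu1 z p hs0.le; linarith))
    have h2 : a / 2 * T < a * s := by nlinarith
    linarith
  have k4 : uu f ζ * (-r ζ) ≤ K₁ * (1 + 8 * M / R₁ * C₁) * 5 * m * uu f (z - (s : ℂ) • ν) := by
    refine k1.trans ?_
    have h1 : -r ζ + 8 * M / R₁ * s ≤ (1 + 8 * M / R₁ * C₁) * m := by
      rw [hsd]; nlinarith
    calc _ ≤ K₁ * ((1 + 8 * M / R₁ * C₁) * m) * (5 * uu f (z - (s : ℂ) • ν)) := by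
          have : 0 ≤ -r ζ + 8 * M / R₁ * s := by
            have : 0 ≤ 8 * M / R₁ * s := by positivity
            linarith
          have h5 : 0 ≤ uu f (ζ - (s : ℂ) • ν) := by
            apply hf.u0
            have := mono_of G.sr G.dnu hs0.le (mem_cb.2 (by linarith : ‖ζ - p‖ ≤ R₁))
              (mem_cb.2 (by have := norm_shift' G.nu1 ζ p hs0.le; linarith))
            have h2 : 0 < a * s := by positivity
            linarith
          gcongr
      _ = _ := by ring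
  have k5 : uu f (z - (s : ℂ) • ν) * τ ≤
      (1 + K₁) ^ 2 * (1 + M * C₁) * m * uu f (z - (T : ℂ) • ν) := by
    refine k3.trans ?_
    have h1 : τ + M * (s - T) ≤ (1 + M * C₁) * m := by
      rw [hsd]
      have : 0 ≤ M * T := by positivity
      nlinarith
    calc _ ≤ (1 + K₁) ^ 2 * ((1 + M * C₁) * m) * uu f (z - (T : ℂ) • ν) := by gcongr
      _ = _ := by ring
  calc uu f ζ * (-r ζ) * τ
      ≤ K₁ * (1 + 8 * M / R₁ * C₁) * 5 * m * uu f (z - (s : ℂ) • ν) * τ := by gcongr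
    _ = K₁ * (1 + 8 * M / R₁ * C₁) * 5 * m * (uu f (z - (s : ℂ) • ν) * τ) := by ring
    _ ≤ K₁ * (1 + 8 * M / R₁ * C₁) * 5 * m *
        ((1 + K₁) ^ 2 * (1 + M * C₁) * m * uu f (z - (T : ℂ) • ν)) := by gcongr
    _ = _ := by ring

/-- the support data -/
noncomputable def qq (rt : En n → ℝ) (P : Fin n → Fin n → ℂ) (y : En n) :
    Option (Fin n) → En n → ℂ :=
  fun o ζ => Option.elim o (-2 * (rt ζ : ℂ)) (fun j => lv rt ζ j - ∑ k, P j k * (ζ k - y k))

/-- the quadratic form -/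
noncomputable def Pq (P : Fin n → Fin n → ℂ) (w : En n) : ℂ := ∑ j, ∑ k, P j k * w j * w k

theorem Pq_norm (P : Fin n → Fin n → ℂ) (w : En n) :
    ‖Pq P w‖ ≤ (∑ j, ∑ k, ‖P j k‖) * ‖w‖ ^ 2 := by
  unfold Pq
  rw [Finset.sum_mul]
  refine (norm_sum_le _ _).trans (Finset.sum_le_sum fun j _ => ?_)
  rw [Finset.sum_mul]
  refine (norm_sum_le _ _).trans (Finset.sum_le_sum fun k _ => ?_)
  rw [norm_mul, norm_mul, sq, mul_assoc]
  gcongr
  · exact norm_le_pi_norm w j
  · exact norm_le_pi_norm w k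

theorem Phi_eq (rt : En n → ℝ) (P : Fin n → Fin n → ℂ) (y ζ : En n) :
    PhiG (qq rt P y) y ζ = -2 * (rt ζ : ℂ) + ell rt ζ (ζ - y) - Pq P (ζ - y) := by
  unfold PhiG qq ell Pq
  simp only [Option.elim, Pi.sub_apply]
  rw [add_sub_assoc, ← Finset.sum_sub_distrib]
  congr 1
  refine Finset.sum_congr rfl fun j _ => ?_
  rw [sub_mul, Finset.sum_mul]
  congr 1
  refine Finset.sum_congr rfl fun k _ => ?_
  ring

theorem Phi_re (G : Geo r rt p ν P j₀ R₀ R₁ a c M) {y ζ : En n} (hy : y ∈ closedBall p R₁)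
    (hζ : ζ ∈ closedBall p R₁) :
    -rt ζ - rt y + c * ‖y - ζ‖ ^ 2 ≤ (PhiG (qq rt P y) y ζ).re := by
  have h := G.levi y hy ζ hζ
  rw [Phi_eq]
  have e1 : (∑ j, ∑ k, P j k * (y j - ζ j) * (y k - ζ k)) = Pq P (ζ - y) := by
    unfold Pq
    refine Finset.sum_congr rfl fun j _ => Finset.sum_congr rfl fun k _ => ?_
    simp only [Pi.sub_apply]; ring
  have e2 : fderiv ℝ rt ζ (y - ζ) = -fderiv ℝ rt ζ (ζ - y) := by
    rw [← map_neg, neg_sub]
  rw [e1, e2] at h
  simp only [sub_re, add_re, ell_re, mul_re, neg_re, re_ofNat, ofReal_re, neg_im, im_ofNat,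
    ofReal_im, mul_zero, sub_zero]
  linarith

theorem lv_smooth (hr : ContDiff ℝ ∞ rt) (j : Fin n) : ContDiff ℝ ∞ (fun ζ => lv rt ζ j) := by
  have h1 : ContDiff ℝ ∞ (fderiv ℝ rt) := hr.fderiv_right (by simp)
  have h2 : ∀ v : En n, ContDiff ℝ ∞ (fun ζ => ((fderiv ℝ rt ζ v : ℝ) : ℂ)) := fun v =>
    Complex.ofRealCLM.contDiff.comp (h1.clm_apply contDiff_const)
  unfold lv
  exact (h2 _).sub (contDiff_const.mul (h2 _))

theorem qq_smooth (hr : ContDiff ℝ ∞ rt) (P : Fin n → Fin n → ℂ) (y : En n)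
    (o : Option (Fin n)) : ContDiff ℝ ∞ (qq rt P y o) := by
  cases o with
  | none =>
    show ContDiff ℝ ∞ (fun ζ => -2 * (rt ζ : ℂ))
    exact contDiff_const.mul (Complex.ofRealCLM.contDiff.comp hr)
  | some j =>
    show ContDiff ℝ ∞ (fun ζ => lv rt ζ j - ∑ k, P j k * (ζ k - y k))
    refine (lv_smooth hr j).sub ?_
    refine ContDiff.sum fun k _ => contDiff_const.mul ?_
    exact (contDiff_apply ℝ ℂ k).sub contDiff_const

theorem qq_dbar (rt : En n → ℝ) (P : Fin n → Fin n → ℂ) (y p ζ : En n) (o : Option (Fin n))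
    (k : Fin n) : dbar k (qq rt P y o) ζ = dbar k (qq rt P p o) ζ := by
  cases o with
  | none => rfl
  | some j =>
    have : qq rt P y (some j) = fun ζ => qq rt P p (some j) ζ + ∑ k, P j k * (y k - p k) := by
      funext ζ
      simp only [qq, Option.elim]
      rw [sub_add, ← Finset.sum_sub_distrib]
      congr 1
      refine Finset.sum_congr rfl fun k _ => ?_
      ring
    rw [this]
    unfold dbar
    rw [fderiv_add_const]

theorem dbar_cont {g : En n → ℂ} (h : ContDiff ℝ ∞ g) (k : Fin n) : Continuous (dbar k g) := by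
  have h1 : Continuous (fderiv ℝ g) := h.continuous_fderiv (by simp)
  unfold dbar
  fun_prop

theorem Jac_eq (rt : En n → ℝ) (P : Fin n → Fin n → ℂ) (y p ζ : En n) :
    JacG (qq rt P y) ζ = (Matrix.of fun i j : Option (Fin n) =>
      Option.elim i (qq rt P y j ζ) (fun k => dbar k (qq rt P p j) ζ)).det := by
  unfold JacG
  congr 1
  ext i j
  cases i with
  | none => rfl
  | some k => exact qq_dbar rt P y p ζ j k

theorem qq_cont2 (hr : ContDiff ℝ ∞ rt) (P : Fin n → Fin n → ℂ) (o : Option (Fin n)) :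
    Continuous (fun x : En n × En n => qq rt P x.1 o x.2) := by
  cases o with
  | none =>
    show Continuous (fun x : En n × En n => -2 * (rt x.2 : ℂ))
    have := hr.continuous
    fun_prop
  | some j =>
    show Continuous (fun x : En n × En n => lv rt x.2 j - ∑ k, P j k * (x.2 k - x.1 k))
    have := (lv_smooth hr j).continuous
    exact (this.comp continuous_snd).sub (by fun_prop)

theorem Jac_cont (hr : ContDiff ℝ ∞ rt) (P : Fin n → Fin n → ℂ) :
    Continuous (fun x : En n × En n => JacG (qq rt P x.1) x.2) := by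
  simp only [Jac_eq rt P _ 0]
  apply Continuous.matrix_det
  apply continuous_matrix
  intro i j
  cases i with
  | none => exact qq_cont2 hr P j
  | some k => exact (dbar_cont (qq_smooth hr P 0 j) k).comp continuous_snd

theorem Phi_cont (hr : ContDiff ℝ ∞ rt) (P : Fin n → Fin n → ℂ) :
    Continuous (fun x : En n × En n => PhiG (qq rt P x.1) x.1 x.2) := by
  unfold PhiG
  refine (qq_cont2 hr P none).add (continuous_finsetSum _ fun j _ => ?_)
  exact (qq_cont2 hr P (some j)).mul (by fun_prop)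

theorem qq_hol (rt : En n → ℝ) (P : Fin n → Fin n → ℂ) (o : Option (Fin n)) (ζ : En n) :
    Differentiable ℂ (fun y => qq rt P y o ζ) := by
  cases o with
  | none => exact differentiable_const _
  | some j =>
    show Differentiable ℂ (fun y : En n => lv rt ζ j - ∑ k, P j k * (ζ k - y k))
    fun_prop

theorem Jac_hol (rt : En n → ℝ) (P : Fin n → Fin n → ℂ) (ζ : En n) :
    Differentiable ℂ (fun y => JacG (qq rt P y) ζ) := by
  simp only [Jac_eq rt P _ 0, Matrix.det_apply']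
  refine Differentiable.fun_sum fun σ _ => (differentiable_const _).mul ?_
  have key : ∀ i : Option (Fin n), Differentiable ℂ (fun y => (Matrix.of fun i j : Option (Fin n) =>
      Option.elim i (qq rt P y j ζ) (fun k => dbar k (qq rt P 0 j) ζ)) (σ i) i) := by
    intro i
    simp only [Matrix.of_apply]
    cases σ i with
    | none => exact qq_hol rt P i ζ
    | some k => exact differentiable_const _
  intro y
  exact (HasFDerivAt.finsetProd (fun i _ => (key i y).hasFDerivAt)).differentiableAt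

theorem Phi_hol (rt : En n → ℝ) (P : Fin n → Fin n → ℂ) (ζ : En n) :
    Differentiable ℂ (fun y => PhiG (qq rt P y) y ζ) := by
  unfold PhiG
  refine (qq_hol rt P none ζ).add (Differentiable.fun_sum fun j _ => ?_)
  exact (qq_hol rt P (some j) ζ).mul (by fun_prop)

/-- the kernel -/
noncomputable def KK (rt : En n → ℝ) (P : Fin n → Fin n → ℂ) (y ζ : En n) : ℂ :=
  KerG (qq rt P y) y ζ

theorem KK_meas (hr : ContDiff ℝ ∞ rt) (P : Fin n → Fin n → ℂ) :
    Measurable (fun x : En n × En n => KK rt P x.1 x.2) := by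
  unfold KK KerG
  exact ((((qq_cont2 hr P none).pow 2).mul (Jac_cont hr P)).measurable).div
    ((Phi_cont hr P).pow _).measurable

theorem KK_hol (rt : En n → ℝ) (P : Fin n → Fin n → ℂ) (ζ y : En n)
    (h : PhiG (qq rt P y) y ζ ≠ 0) : DifferentiableAt ℂ (fun y => KK rt P y ζ) y := by
  unfold KK KerG
  simp only [div_eq_mul_inv]
  exact ((((qq_hol rt P none ζ).pow 2).mul (Jac_hol rt P ζ)) y).mul
    ((((Phi_hol rt P ζ).pow _) y).inv (pow_ne_zero _ h))

theorem KK_contAt (hr : ContDiff ℝ ∞ rt) (P : Fin n → Fin n → ℂ) (x : En n × En n)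
    (h : PhiG (qq rt P x.1) x.1 x.2 ≠ 0) :
    ContinuousAt (fun x : En n × En n => KK rt P x.1 x.2) x := by
  unfold KK KerG
  exact ((((qq_cont2 hr P none).pow 2).mul (Jac_cont hr P)).continuousAt).div
    ((Phi_cont hr P).pow _).continuousAt (pow_ne_zero _ h)

theorem KK_bound (hr : ContDiff ℝ ∞ rt) (P : Fin n → Fin n → ℂ) (p : En n) (R : ℝ) :
    ∃ C : ℝ, 0 ≤ C ∧ ∀ y ∈ closedBall p R, ∀ ζ ∈ closedBall p R, ∀ m : ℝ, 0 < m →
      m ≤ ‖PhiG (qq rt P y) y ζ‖ → ‖KK rt P y ζ‖ ≤ C * (rt ζ) ^ 2 / m ^ (n + 3) := by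
  obtain ⟨C, hC⟩ := ((isCompact_closedBall p R).prod
    (isCompact_closedBall p R)).exists_bound_of_continuousOn (Jac_cont hr P).continuousOn
  refine ⟨4 * |C|, by positivity, ?_⟩
  intro y hy ζ hζ m hm hΦ
  have h1 : ‖JacG (qq rt P y) ζ‖ ≤ |C| := (hC (y, ζ) ⟨hy, hζ⟩).trans (le_abs_self C)
  unfold KK KerG
  rw [norm_div, norm_mul, norm_pow, norm_pow]
  have h2 : ‖qq rt P y none ζ‖ ^ 2 = 4 * (rt ζ) ^ 2 := by
    simp only [qq, Option.elim, norm_mul, norm_neg, Complex.norm_ofNat, Complex.norm_real,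
      Real.norm_eq_abs, mul_pow, sq_abs]
    norm_num
  rw [h2]
  calc 4 * rt ζ ^ 2 * ‖JacG (qq rt P y) ζ‖ / ‖PhiG (qq rt P y) y ζ‖ ^ (n + 3)
      ≤ 4 * rt ζ ^ 2 * |C| / m ^ (n + 3) := by gcongr
    _ = _ := by ring

end Pool.Agent.H922Z.NU
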