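import Pool.Agent.H922Z.NU.L3
import Pool.Agent.Helper540.Holo

set_option autoImplicit false

open MeasureTheory Complex Metric Set Filter Topology
open scoped ContDiff ComplexConjugate

namespace Pool.Agent.H922Z.NU

open BK

variable {n : ℕ} {r rt : En n → ℝ} {p ν : En n} {P : Fin n → Fin n → ℂ} {j₀ : Fin n}
  {R₀ R₁ a c M : ℝ} {f : En n → ℂ}

/-- the localised domain -/
def Om (rt : En n → ℝ) (p : En n) (R₁ : ℝ) : Set (En n) := {ζ | ζ ∈ ball p R₁ ∧ rt ζ < 0}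

theorem Geo.Om_open (G : Geo r rt p ν P j₀ R₀ R₁ a c M) : IsOpen (Om rt p R₁) :=
  isOpen_ball.inter (isOpen_lt G.srt.continuous continuous_const)

theorem Om_bdd : Bornology.IsBounded (Om rt p R₁) :=
  isBounded_ball.subset fun _ h => h.1

theorem Geo.Om_norm (G : Geo r rt p ν P j₀ R₀ R₁ a c M) {ζ : En n} (h : ζ ∈ Om rt p R₁) :
    ‖ζ - p‖ < R₁ / 4 := by
  by_contra hc
  push Not at hc
  have := G.pos ζ (ball_subset_closedBall h.1) hc
  have := h.2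
  linarith

theorem Geo.Om_r (G : Geo r rt p ν P j₀ R₀ R₁ a c M) {ζ : En n} (h : ζ ∈ Om rt p R₁) :
    r ζ < 0 := lt_of_le_of_lt (G.le ζ) h.2

theorem Geo.Om_cl (G : Geo r rt p ν P j₀ R₀ R₁ a c M) {ζ : En n}
    (h : ζ ∈ closure (Om rt p R₁)) : ‖ζ - p‖ ≤ R₁ / 4 ∧ rt ζ ≤ 0 := by
  have h1 : IsClosed {ζ : En n | ‖ζ - p‖ ≤ R₁ / 4} := isClosed_le (by fun_prop) continuous_const
  have h2 : IsClosed {ζ : En n | rt ζ ≤ 0} := isClosed_le G.srt.continuous continuous_const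
  have h3 : Om rt p R₁ ⊆ {ζ : En n | ‖ζ - p‖ ≤ R₁ / 4} ∩ {ζ : En n | rt ζ ≤ 0} :=
    fun x hx => ⟨(G.Om_norm hx).le, hx.2.le⟩
  exact closure_minimal h3 (h1.inter h2) h

theorem Geo.Om_fr (G : Geo r rt p ν P j₀ R₀ R₁ a c M) {ζ : En n}
    (h : ζ ∈ frontier (Om rt p R₁)) : rt ζ = 0 := by
  rw [G.Om_open.frontier_eq] at h
  obtain ⟨h1, h2⟩ := G.Om_cl h.1
  have hR := G.R1pos
  by_contra hne
  exact h.2 ⟨by rw [mem_ball, dist_eq_norm]; linarith, lt_of_le_of_ne h2 hne⟩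

theorem Om_fin : IsFiniteMeasure ((volume : Measure (En n)).restrict (Om rt p R₁)) :=
  ⟨by rw [Measure.restrict_apply_univ]; exact Om_bdd.measure_lt_top⟩

theorem hh_diff (G : Geo r rt p ν P j₀ R₀ R₁ a c M) (hf : Fn r f) :
    DifferentiableOn ℂ (hh f ν) {z | r z < 0} := by
  unfold hh
  simp only [div_eq_mul_inv]
  exact ((Pool.Agent.Helper540.differentiableOn_fderiv_apply G.open hf.df ν).mul
    (hf.df.inv hf.ne)).neg

theorem KH_bound (h4 : T4b) (G : Geo r rt p ν P j₀ R₀ R₁ a c M) (hf : Fn r f) :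
    ∃ C : ℝ, 0 ≤ C ∧ ∀ y ∈ closedBall p R₁, ∀ ζ ∈ Om rt p R₁, ∀ x, ‖x - p‖ ≤ R₁ / 2 →
      r x ≤ r ζ → ∀ m : ℝ, 0 < m → m ≤ ‖PhiG (qq rt P y) y ζ‖ →
      ‖KK rt P y ζ * hh f ν x‖ ≤ C * (uu f x * (-r x)) / m ^ (n + 3) := by
  obtain ⟨C, hC0, hC⟩ := KK_bound G.srt P p R₁
  have hM := G.Mpos
  refine ⟨C * (2 * M), by positivity, ?_⟩
  intro y hy ζ hζ x hx hrx m hm hΦ
  have h1 := hC y hy ζ (ball_subset_closedBall hζ.1) m hm hΦ
  have hr : r x < 0 := lt_of_le_of_lt hrx (G.Om_r hζ)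
  have h2 := hh_bound h4 G hf hx hr
  have h3 : rt ζ ^ 2 ≤ (-r x) ^ 2 := by
    have e1 := G.le ζ
    have e2 := hζ.2
    rw [← neg_sq (rt ζ)]
    gcongr
    · linarith
    · linarith
  rw [norm_mul]
  have h5 : 0 ≤ -r x := by linarith
  calc ‖KK rt P y ζ‖ * ‖hh f ν x‖ ≤ C * (-r x) ^ 2 / m ^ (n + 3) * ‖hh f ν x‖ := by
        refine mul_le_mul_of_nonneg_right (h1.trans ?_) (norm_nonneg _)
        gcongr
    _ = C * (-r x) * (‖hh f ν x‖ * (-r x)) / m ^ (n + 3) := by ring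
    _ ≤ C * (-r x) * (2 * M * uu f x) / m ^ (n + 3) := by gcongr
    _ = _ := by ring

theorem RF (h4a : T4a) (h4b : T4b) (G : Geo r rt p ν P j₀ R₀ R₁ a c M) (hf : Fn r f) {c3 : ℂ}
    (h3 : ∀ (q : Option (Fin n) → En n → ℂ),
      (∀ j, ContDiff ℝ ∞ (q j)) → ∀ Ω : Set (En n), IsOpen Ω → Bornology.IsBounded Ω →
      ∀ z ∈ Ω, (∀ ζ ∈ frontier Ω, q none ζ = 0) → (∀ ζ ∈ closure Ω, 0 < (PhiG q z ζ).re) →
      ∀ (h : En n → ℂ) (O : Set (En n)), IsOpen O → closure Ω ⊆ O → DifferentiableOn ℂ h O →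
        ∫ ζ in Ω, KerG q z ζ * h ζ = c3 * h z)
    {y : En n} (hy : ‖y - p‖ < R₀) (hry : r y < 0) :
    ∫ ζ in Om rt p R₁, KK rt P y ζ * hh f ν ζ = c3 * hh f ν y := by
  have hR1 := G.R1pos
  have hR01 := G.R01
  have hR0 := G.R0
  have ha := G.a0
  have hc := G.c0
  obtain ⟨C1, hC10, hC1⟩ := B1 h4a G hf
  obtain ⟨C2, hC20, hC2⟩ := KH_bound h4b G hf
  have hyb : y ∈ ball p R₀ := by rwa [mem_ball, dist_eq_norm]
  have hyc : y ∈ closedBall p R₁ := mem_cb.2 (by linarith)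
  have hyO : y ∈ Om rt p R₁ :=
    ⟨by rw [mem_ball, dist_eq_norm]; linarith, by rw [G.eq y hyb]; exact hry⟩
  have hΦ : ∀ ζ ∈ closure (Om rt p R₁), -r y ≤ (PhiG (qq rt P y) y ζ).re := by
    intro ζ hζ
    obtain ⟨h1, h2⟩ := G.Om_cl hζ
    have h3 := Phi_re G hyc (mem_cb.2 (by linarith : ‖ζ - p‖ ≤ R₁))
    rw [G.eq y hyb] at h3
    have : 0 ≤ c * ‖y - ζ‖ ^ 2 := by positivity
    linarith
  let σ : ℕ → ℝ := fun k => R₁ / 4 * (1 / ((k : ℝ) + 1))
  have hσ0 : ∀ k, 0 < σ k := fun k => by positivity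
  have hσ1 : ∀ k, σ k ≤ R₁ / 4 := fun k => by
    have : 1 / ((k : ℝ) + 1) ≤ 1 := by
      rw [div_le_one (by positivity)]
      have : (0 : ℝ) ≤ k := Nat.cast_nonneg k
      linarith
    simp only [σ]
    nlinarith
  have hσl : Tendsto σ atTop (𝓝 0) := by
    have := tendsto_one_div_add_atTop_nhds_zero_nat (𝕜 := ℝ).const_mul (R₁ / 4)
    simpa [σ] using this
  have hsh : ∀ k, ∀ ζ ∈ closure (Om rt p R₁), ‖ζ - (σ k : ℂ) • ν - p‖ ≤ R₁ / 2 ∧
      r (ζ - (σ k : ℂ) • ν) ≤ r ζ - a * σ k := by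
    intro k ζ hζ
    obtain ⟨h1, h2⟩ := G.Om_cl hζ
    have h3 := norm_shift' G.nu1 ζ p (hσ0 k).le
    have h4 := hσ1 k
    exact ⟨by linarith, mono_of G.sr G.dnu (hσ0 k).le (mem_cb.2 (by linarith))
      (mem_cb.2 (by linarith))⟩
  have hneg : ∀ k, ∀ ζ ∈ closure (Om rt p R₁), r (ζ - (σ k : ℂ) • ν) < 0 := by
    intro k ζ hζ
    have h1 := (hsh k ζ hζ).2
    have h2 := (G.Om_cl hζ).2
    have h3 := G.le ζ
    have h4 : 0 < a * σ k := mul_pos ha (hσ0 k)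
    linarith
  have hdk : ∀ k, DifferentiableOn ℂ (fun ζ => hh f ν (ζ - (σ k : ℂ) • ν))
      {ζ | r (ζ - (σ k : ℂ) • ν) < 0} := by
    intro k
    exact (hh_diff G hf).comp (by fun_prop) (fun x hx => hx)
  have hk : ∀ k, ∫ ζ in Om rt p R₁, KK rt P y ζ * hh f ν (ζ - (σ k : ℂ) • ν) =
      c3 * hh f ν (y - (σ k : ℂ) • ν) := by
    intro k
    refine h3 (qq rt P y) (qq_smooth G.srt P y) _ G.Om_open Om_bdd y hyO ?_ ?_
      (fun ζ => hh f ν (ζ - (σ k : ℂ) • ν)) {ζ | r (ζ - (σ k : ℂ) • ν) < 0} ?_ (hneg k) (hdk k)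
    · intro ζ hζ
      simp [qq, G.Om_fr hζ]
    · intro ζ hζ
      have := hΦ ζ hζ
      linarith
    · exact isOpen_lt (G.sr.continuous.comp (by fun_prop)) continuous_const
  have hcv : ∀ x, r x < 0 → Tendsto (fun k => hh f ν (x - (σ k : ℂ) • ν)) atTop (𝓝 (hh f ν x)) := by
    intro x hx
    have h1 : ContinuousAt (hh f ν) x :=
      ((hh_diff G hf).continuousOn x hx).continuousAt (G.open.mem_nhds hx)
    apply h1.tendsto.comp
    have h2 : Tendsto (fun k => (σ k : ℂ)) atTop (𝓝 0) := by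
      have := (Complex.continuous_ofReal.tendsto 0).comp hσl
      rw [Complex.ofReal_zero] at this
      exact this
    simpa using (h2.smul_const ν).const_sub x
  have := Om_fin (rt := rt) (p := p) (R₁ := R₁)
  have hKc : ContinuousOn (fun ζ => KK rt P y ζ) (Om rt p R₁) := by
    intro ζ hζ
    apply ContinuousAt.continuousWithinAt
    have h1 := KK_contAt G.srt P (y, ζ) (by
      intro h0
      have := hΦ ζ (subset_closure hζ)
      simp only at h0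
      rw [h0] at this
      simp at this
      linarith)
    exact h1.comp (f := fun ζ : En n => (y, ζ)) (by fun_prop)
  have hlim := tendsto_integral_of_dominated_convergence
    (μ := (volume : Measure (En n)).restrict (Om rt p R₁))
    (F := fun k ζ => KK rt P y ζ * hh f ν (ζ - (σ k : ℂ) • ν))
    (f := fun ζ => KK rt P y ζ * hh f ν ζ) (fun _ => C2 * C1 / (-r y) ^ (n + 3))
    (fun k => (hKc.mul ((hdk k).continuousOn.mono
      (fun ζ hζ => hneg k ζ (subset_closure hζ)))).aestronglyMeasurable G.Om_open.measurableSet)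
    (integrable_const _)
    (fun k => by
      rw [ae_restrict_iff' G.Om_open.measurableSet]
      refine Eventually.of_forall fun ζ hζ => ?_
      obtain ⟨e1, e2⟩ := hsh k ζ (subset_closure hζ)
      have e3 : 0 < a * σ k := mul_pos ha (hσ0 k)
      refine (hC2 y hyc ζ hζ _ e1 (by linarith) (-r y) (by linarith)
        ((hΦ ζ (subset_closure hζ)).trans (Complex.re_le_norm _))).trans ?_
      have e4 := hC1 _ e1 (hneg k ζ (subset_closure hζ))
      have : 0 < -r y := by linarith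
      gcongr)
    (by
      rw [ae_restrict_iff' G.Om_open.measurableSet]
      exact Eventually.of_forall fun ζ hζ => (hcv ζ (G.Om_r hζ)).const_mul _)
  simp only [hk] at hlim
  exact tendsto_nhds_unique hlim ((hcv y hry).const_mul c3)

theorem NN_eq (r : En n → ℝ) (z ζ : En n) :
    NN (lv r z) z ζ = ‖ζ - z‖ ^ 2 + ‖ell r z (ζ - z)‖ := rfl

theorem PhiLow (G : Geo r rt p ν P j₀ R₀ R₁ a c M) {s₀ A : ℝ} (hs₀ : s₀ ≤ R₀ / 2)
    (hcs : c * s₀ ≤ a / 2) (hA : 1 ≤ A) : ∃ C : ℝ, 0 < C ∧ ∀ (z ζ : En n) (T s : ℝ),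
      ‖z - p‖ < R₀ / 2 → ζ ∈ Om rt p R₁ → 0 ≤ T → T ≤ s₀ → 0 ≤ s → s ≤ s₀ →
      T ≤ A * (s + ‖ζ - z‖ ^ 2) → r z ≤ min (a / 2) (c / 2) / (2 * A) * T →
      -r (z - (T : ℂ) • ν) + -rt ζ + NN (lv r z) z ζ + T ≤
        C * ‖PhiG (qq rt P (z - (s : ℂ) • ν)) (z - (s : ℂ) • ν) ζ‖ := by
  have hR1 := G.R1pos
  have hR01 := G.R01
  have hR0 := G.R0
  have hR14 := G.R1
  have ha := G.a0
  have hc := G.c0
  have hM := G.Mpos
  set b := min (a / 2) (c / 2) with hb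
  have hb0 : 0 < b := lt_min (by positivity) (by positivity)
  have hba : b ≤ a / 2 := min_le_left _ _
  have hbc : b ≤ c / 2 := min_le_right _ _
  refine ⟨5 + (M * A + 1 + 6 * M + A) * (2 / b), by positivity, ?_⟩
  intro z ζ T s hz hζ hT0 hT1 hs0 hs1 hTA hrz
  set y := z - (s : ℂ) • ν with hy
  set Φ := PhiG (qq rt P y) y ζ with hΦ
  set e := ‖ζ - z‖ with he
  have he0 : 0 ≤ e := norm_nonneg _
  have hζn := G.Om_norm hζ
  have hζc : ζ ∈ closedBall p R₁ := ball_subset_closedBall hζ.1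
  have hzc : z ∈ closedBall p R₁ := mem_cb.2 (by linarith)
  have hyn : ‖y - p‖ < R₀ := by have := norm_shift' G.nu1 z p hs0; linarith
  have hyc : y ∈ closedBall p R₁ := mem_cb.2 (by linarith)
  have h1 := Phi_re G hyc hζc
  rw [G.eq y (by rwa [mem_ball, dist_eq_norm])] at h1
  have h2 : r y ≤ r z - a * s := mono_of G.sr G.dnu hs0 hzc hyc
  have hνs : ‖(s : ℂ) • ν‖ = s := by
    rw [norm_smul, G.nu1, mul_one, Complex.norm_real, Real.norm_of_nonneg hs0]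
  have h3 : e ≤ ‖y - ζ‖ + s := by
    have : ζ - z = -(y - ζ) - (s : ℂ) • ν := by rw [hy]; abel
    rw [he, this]
    refine (norm_sub_le _ _).trans ?_
    rw [norm_neg, hνs]
  have h4 : e ^ 2 ≤ 2 * ‖y - ζ‖ ^ 2 + 2 * s ^ 2 := by
    have : e ^ 2 ≤ (‖y - ζ‖ + s) ^ 2 := by gcongr
    nlinarith [sq_nonneg (‖y - ζ‖ - s)]
  have h5 : c * s ^ 2 ≤ a / 2 * s := by
    have : c * s ≤ a / 2 := le_trans (by gcongr) hcs
    nlinarith
  set Y := s + e ^ 2 with hY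
  have hY0 : 0 ≤ Y := by positivity
  have h6 : -rt ζ + -r z + b * Y ≤ Φ.re := by
    have e1 : b * Y ≤ a / 2 * s + c / 2 * e ^ 2 := by
      rw [hY, mul_add]; gcongr
    have e2 : c / 2 * e ^ 2 ≤ c * ‖y - ζ‖ ^ 2 + c * s ^ 2 := by
      have : c / 2 * e ^ 2 ≤ c / 2 * (2 * ‖y - ζ‖ ^ 2 + 2 * s ^ 2) := by gcongr
      linarith
    linarith
  have h7 : r z ≤ b / 2 * Y := by
    refine hrz.trans ?_
    calc b / (2 * A) * T ≤ b / (2 * A) * (A * Y) := by gcongr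
      _ = b / 2 * Y := by field_simp
  have hre := Complex.re_le_norm Φ
  have hδ : 0 < -rt ζ := by have := hζ.2; linarith
  have h8 : Y ≤ 2 / b * ‖Φ‖ := by
    have : b / 2 * Y ≤ ‖Φ‖ := by linarith
    calc Y = 2 / b * (b / 2 * Y) := by field_simp
      _ ≤ _ := by gcongr
  have h9 : -r (z - (T : ℂ) • ν) ≤ -r z + M * T := by
    have hn := norm_shift' G.nu1 z p hT0
    have := lip_of G.sr G.d1 hzc (mem_cb.2 (by linarith : ‖z - (T : ℂ) • ν - p‖ ≤ R₁))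
    rw [sub_sub_cancel_left, norm_neg, norm_smul, G.nu1, mul_one, Complex.norm_real,
      Real.norm_of_nonneg hT0] at this
    have h' := neg_abs_le (r (z - (T : ℂ) • ν) - r z)
    linarith
  have hfd : fderiv ℝ r z = fderiv ℝ rt z := by
    apply Filter.EventuallyEq.fderiv_eq
    have : z ∈ ball p R₀ := by rw [mem_ball, dist_eq_norm]; linarith
    filter_upwards [isOpen_ball.mem_nhds this] with x hx using (G.eq x hx).symm
  have h10 : ‖ell r z (ζ - z) - ell rt ζ (ζ - z)‖ ≤ 2 * M * e ^ 2 := by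
    refine (ell_sub_norm r rt z ζ (ζ - z)).trans ?_
    rw [hfd]
    have := G.d2t z hzc ζ hζc
    rw [norm_sub_rev z ζ] at this
    calc 2 * ‖fderiv ℝ rt z - fderiv ℝ rt ζ‖ * e ≤ 2 * (M * e) * e := by gcongr
      _ = _ := by ring
  have h11 : ell rt ζ (ζ - z) = Φ + 2 * (rt ζ : ℂ) + Pq P (ζ - y) - (s : ℂ) * ell rt ζ ν := by
    have : ζ - y = (ζ - z) + (s : ℂ) • ν := by rw [hy]; abel
    rw [hΦ, Phi_eq]
    conv_rhs => rw [this, ell_add, ell_smul]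
    rw [← this]
    ring
  have hs1' : s ≤ 1 := by linarith
  have h12 : ‖Pq P (ζ - y)‖ ≤ 2 * M * Y := by
    refine (Pq_norm P _).trans ?_
    have e1 : ‖ζ - y‖ ≤ e + s := by
      have : ζ - y = (ζ - z) + (s : ℂ) • ν := by rw [hy]; abel
      rw [this]
      refine (norm_add_le _ _).trans ?_
      rw [hνs]
    have e2 : ‖ζ - y‖ ^ 2 ≤ 2 * Y := by
      have : ‖ζ - y‖ ^ 2 ≤ (e + s) ^ 2 := by gcongr
      nlinarith [sq_nonneg (e - s)]
    calc _ ≤ M * (2 * Y) := by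
          have := G.PM
          gcongr
      _ = _ := by ring
  have h13 : ‖(s : ℂ) * ell rt ζ ν‖ ≤ 2 * M * Y := by
    rw [norm_mul, Complex.norm_real, Real.norm_of_nonneg hs0]
    have e1 := ell_norm rt ζ ν
    rw [G.nu1, mul_one] at e1
    have e2 := G.d1t ζ hζc
    have e3 : s ≤ Y := by rw [hY]; nlinarith
    calc s * ‖ell rt ζ ν‖ ≤ Y * (2 * M) := by gcongr; linarith
      _ = _ := by ring
  have h14 : ‖ell rt ζ (ζ - z)‖ ≤ ‖Φ‖ + 2 * (-rt ζ) + 2 * M * Y + 2 * M * Y := by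
    rw [h11]
    refine (norm_sub_le _ _).trans (add_le_add ?_ h13)
    refine (norm_add_le _ _).trans (add_le_add ?_ h12)
    refine (norm_add_le _ _).trans (add_le_add le_rfl ?_)
    rw [norm_mul, Complex.norm_real, Real.norm_eq_abs, abs_of_neg hζ.2]
    simp
  have h15 : ‖ell r z (ζ - z)‖ ≤ ‖ell rt ζ (ζ - z)‖ + 2 * M * e ^ 2 := by
    have := norm_add_le (ell rt ζ (ζ - z)) (ell r z (ζ - z) - ell rt ζ (ζ - z))
    rw [add_sub_cancel] at this
    linarith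
  have h16 : e ^ 2 ≤ Y := by rw [hY]; linarith
  have h17 : M * T ≤ M * (A * Y) := by gcongr
  have h18 : 2 * M * e ^ 2 ≤ 2 * M * Y := by gcongr
  have h19 : (M * A + 1 + 6 * M + A) * Y ≤ (M * A + 1 + 6 * M + A) * (2 / b * ‖Φ‖) := by gcongr
  have h20 : 0 ≤ b * Y := by positivity
  rw [NN_eq]
  nlinarith

end Pool.Agent.H922Z.NU
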