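import Pool.Agent.H922Z.NU.L4

set_option autoImplicit false

open MeasureTheory Complex Metric Set Filter Topology
open scoped ContDiff ComplexConjugate

namespace Pool.Agent.H922Z.NU

open BK

variable {n : ℕ} {r rt : En n → ℝ} {p ν : En n} {P : Fin n → Fin n → ℂ} {j₀ : Fin n}
  {R₀ R₁ a c M s₀ : ℝ} {f : En n → ℂ} {F : Set (En n)}

/-- data: depth parameter and the set -/
structure Dat (r : En n → ℝ) (p : En n) (R₀ a c s₀ : ℝ) (F : Set (En n)) : Prop where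
  s0 : 0 < s₀
  s1 : s₀ ≤ R₀ / 2
  s2 : c * s₀ ≤ a / 2
  Fne : F.Nonempty
  Fsub : F ⊆ closedBall p (R₀ / 2)
  Fr : ∀ x ∈ F, r x = 0

/-- the depth function -/
noncomputable def tt (s₀ : ℝ) (F : Set (En n)) (x : En n) : ℝ :=
  s₀ * infDist x F ^ (4 * (n + 3) + 1)

/-- the relative height -/
noncomputable def th (n : ℕ) (a c : ℝ) : ℝ := min (a / 2) (c / 2) / (2 * 2 ^ (4 * (n + 3)))

/-- the enlarged local domain -/
def U1 (r : En n → ℝ) (p : En n) (R₀ a c s₀ : ℝ) (F : Set (En n)) : Set (En n) :=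
  {z | z ∈ ball p (R₀ / 2) ∧ r z < th n a c * tt s₀ F z}

/-- the gauge -/
noncomputable def mm (r rt : En n → ℝ) (ν : En n) (s₀ : ℝ) (F : Set (En n)) (z ζ : En n) : ℝ :=
  -r (z - (tt s₀ F z : ℂ) • ν) + -rt ζ + NN (lv r z) z ζ + tt s₀ F z

theorem tt_cont (s₀ : ℝ) (F : Set (En n)) : Continuous (tt s₀ F) :=
  continuous_const.mul ((continuous_infDist_pt F).pow _)

theorem d_le (G : Geo r rt p ν P j₀ R₀ R₁ a c M) (D : Dat r p R₀ a c s₀ F) {x : En n}
    (hx : ‖x - p‖ ≤ R₁) : infDist x F ≤ 1 := by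
  obtain ⟨y, hy⟩ := D.Fne
  have h1 := mem_cb.1 (D.Fsub hy)
  refine (infDist_le_dist_of_mem hy).trans ?_
  rw [dist_eq_norm]
  have : x - y = (x - p) - (y - p) := by abel
  rw [this]
  refine (norm_sub_le _ _).trans ?_
  have := G.R1; have := G.R01; have := G.R0
  linarith

theorem tt_nonneg (D : Dat r p R₀ a c s₀ F) (x : En n) : 0 ≤ tt s₀ F x :=
  mul_nonneg D.s0.le (pow_nonneg infDist_nonneg _)

theorem tt_le (G : Geo r rt p ν P j₀ R₀ R₁ a c M) (D : Dat r p R₀ a c s₀ F) {x : En n}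
    (hx : ‖x - p‖ ≤ R₁) : tt s₀ F x ≤ s₀ :=
  mul_le_of_le_one_right D.s0.le (pow_le_one₀ infDist_nonneg (d_le G D hx))

theorem th_pos (G : Geo r rt p ν P j₀ R₀ R₁ a c M) : 0 < th n a c := by
  have := G.a0; have := G.c0
  unfold th
  exact div_pos (lt_min (by positivity) (by positivity)) (by positivity)

theorem th_le (G : Geo r rt p ν P j₀ R₀ R₁ a c M) : th n a c ≤ a / 2 := by
  have := G.a0; have := G.c0
  unfold th
  refine (div_le_self (le_min (by positivity) (by positivity)) ?_).trans (min_le_left _ _)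
  have : (1 : ℝ) ≤ 2 ^ (4 * (n + 3)) := one_le_pow₀ (by norm_num)
  linarith

theorem U1_norm {z : En n} (hz : z ∈ U1 r p R₀ a c s₀ F) : ‖z - p‖ < R₀ / 2 := by
  have := hz.1; rwa [mem_ball, dist_eq_norm] at this

theorem d_pos (G : Geo r rt p ν P j₀ R₀ R₁ a c M) (D : Dat r p R₀ a c s₀ F) {z : En n}
    (hz : z ∈ U1 r p R₀ a c s₀ F) : 0 < infDist z F := by
  rcases (infDist_nonneg (x := z) (s := F)).eq_or_lt with h | h
  · exfalso
    have h1 : z ∈ closure F := (mem_closure_iff_infDist_zero D.Fne).2 h.symm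
    have h2 : r z = 0 :=
      closure_minimal (fun x hx => D.Fr x hx) (isClosed_eq G.sr.continuous continuous_const) h1
    have h3 := hz.2
    unfold tt at h3
    rw [← h, h2] at h3
    simp at h3
  · exact h

theorem T_pos (G : Geo r rt p ν P j₀ R₀ R₁ a c M) (D : Dat r p R₀ a c s₀ F) {z : En n}
    (hz : z ∈ U1 r p R₀ a c s₀ F) : 0 < tt s₀ F z :=
  mul_pos D.s0 (pow_pos (d_pos G D hz) _)

theorem U1_R1 (G : Geo r rt p ν P j₀ R₀ R₁ a c M) {z : En n}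
    (hz : z ∈ U1 r p R₀ a c s₀ F) : ‖z - p‖ ≤ R₁ / 16 := by
  have := U1_norm hz; have := G.R01; linarith

theorem shift_r (G : Geo r rt p ν P j₀ R₀ R₁ a c M) (D : Dat r p R₀ a c s₀ F) {z : En n}
    (hz : z ∈ U1 r p R₀ a c s₀ F) {s : ℝ} (h1 : tt s₀ F z ≤ s) (h2 : s ≤ s₀) :
    ‖z - (s : ℂ) • ν - p‖ < R₀ ∧ r (z - (s : ℂ) • ν) ≤ -(a / 2 * s) := by
  have hT := T_pos G D hz
  have hs : 0 ≤ s := by linarith
  have hn := norm_shift' G.nu1 z p hs
  have h3 := U1_norm hz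
  have h4 := D.s1
  have h5 := G.R01
  have h6 := G.R0
  refine ⟨by linarith, ?_⟩
  have h7 := mono_of G.sr G.dnu hs (mem_cb.2 (by linarith : ‖z - p‖ ≤ R₁))
    (mem_cb.2 (by linarith))
  have h8 : th n a c * tt s₀ F z ≤ a / 2 * s := by
    have := th_le G
    have := G.a0
    gcongr
  have := hz.2
  linarith

theorem e_le (G : Geo r rt p ν P j₀ R₀ R₁ a c M) {z ζ : En n}
    (hz : z ∈ U1 r p R₀ a c s₀ F) (hζ : ζ ∈ Om rt p R₁) : ‖ζ - z‖ ≤ 1 := by
  have h1 := U1_R1 G hz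
  have h2 := G.Om_norm hζ
  have : ζ - z = (ζ - p) - (z - p) := by abel
  rw [this]
  refine (norm_sub_le _ _).trans ?_
  have := G.R1; have := G.R1pos
  linarith

theorem s0_le (G : Geo r rt p ν P j₀ R₀ R₁ a c M) (D : Dat r p R₀ a c s₀ F) : s₀ ≤ 1 := by
  have := D.s1; have := G.R01; have := G.R1; have := G.R0; linarith

theorem T_le (G : Geo r rt p ν P j₀ R₀ R₁ a c M) (D : Dat r p R₀ a c s₀ F) {z ζ : En n}
    (hz : z ∈ U1 r p R₀ a c s₀ F) (hζ : ζ ∈ Om rt p R₁) {s : ℝ}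
    (hs : min (tt s₀ F ζ) (tt s₀ F z) ≤ s) :
    tt s₀ F z ≤ 2 ^ (4 * (n + 3)) * (s + ‖ζ - z‖ ^ 2) := by
  have h1 : (1 : ℝ) ≤ 2 ^ (4 * (n + 3)) := one_le_pow₀ (by norm_num)
  have hT := T_pos G D hz
  rcases min_le_iff.1 hs with h | h
  · have he := e_le G hz hζ
    have he0 := norm_nonneg (ζ - z)
    have h2 : infDist z F ≤ infDist ζ F + ‖ζ - z‖ := by
      have := infDist_le_infDist_add_dist (x := z) (y := ζ) (s := F)
      rwa [dist_eq_norm, norm_sub_rev] at this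
    have h3 : infDist z F ^ (4 * (n + 3) + 1) ≤ 2 ^ (4 * (n + 3)) *
        (infDist ζ F ^ (4 * (n + 3) + 1) + ‖ζ - z‖ ^ (4 * (n + 3) + 1)) := by
      have := add_pow_le (infDist_nonneg (x := ζ) (s := F)) he0 (4 * (n + 3) + 1)
      rw [Nat.add_sub_cancel] at this
      exact (pow_le_pow_left₀ infDist_nonneg h2 _).trans this
    have h4 : ‖ζ - z‖ ^ (4 * (n + 3) + 1) ≤ ‖ζ - z‖ ^ 2 :=
      pow_le_pow_of_le_one he0 he (by omega)
    have h5 := s0_le G D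
    have h6 := D.s0
    unfold tt at h ⊢
    calc s₀ * infDist z F ^ (4 * (n + 3) + 1) ≤ s₀ * (2 ^ (4 * (n + 3)) *
        (infDist ζ F ^ (4 * (n + 3) + 1) + ‖ζ - z‖ ^ 2)) := by
          gcongr
          exact h3.trans (by gcongr)
      _ = 2 ^ (4 * (n + 3)) * (s₀ * infDist ζ F ^ (4 * (n + 3) + 1) + s₀ * ‖ζ - z‖ ^ 2) := by
          ring
      _ ≤ _ := by
          gcongr
          exact mul_le_of_le_one_left (by positivity) h5
  · have : 0 ≤ ‖ζ - z‖ ^ 2 := by positivity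
    nlinarith

theorem mm_facts (G : Geo r rt p ν P j₀ R₀ R₁ a c M) (D : Dat r p R₀ a c s₀ F) {z ζ : En n}
    (hz : z ∈ U1 r p R₀ a c s₀ F) (hζ : ζ ∈ Om rt p R₁) :
    -r (z - (tt s₀ F z : ℂ) • ν) ≤ mm r rt ν s₀ F z ζ ∧ -rt ζ ≤ mm r rt ν s₀ F z ζ ∧
      NN (lv r z) z ζ ≤ mm r rt ν s₀ F z ζ ∧ tt s₀ F z ≤ mm r rt ν s₀ F z ζ := by
  have hT := T_pos G D hz
  have h1 := (shift_r G D hz le_rfl (tt_le G D (by
    have := U1_R1 G hz; have := G.R1pos; linarith))).2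
  have h2 : 0 < a / 2 * tt s₀ F z := by have := G.a0; positivity
  have h3 := hζ.2
  have h4 : 0 ≤ NN (lv r z) z ζ := by unfold NN; positivity
  unfold mm
  refine ⟨?_, ?_, ?_, ?_⟩ <;> linarith

theorem KH2 (h4 : T4b) (G : Geo r rt p ν P j₀ R₀ R₁ a c M) (hf : Fn r f)
    (D : Dat r p R₀ a c s₀ F) : ∃ C : ℝ, 0 ≤ C ∧ ∀ z ∈ U1 r p R₀ a c s₀ F, ∀ ζ ∈ Om rt p R₁,
      ∀ s : ℝ, min (tt s₀ F ζ) (tt s₀ F z) ≤ s → s ≤ s₀ →
      PhiG (qq rt P (z - (s : ℂ) • ν)) (z - (s : ℂ) • ν) ζ ≠ 0 ∧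
      ‖KK rt P (z - (s : ℂ) • ν) ζ * hh f ν ζ‖ ≤
        C * (uu f ζ * (-r ζ) / mm r rt ν s₀ F z ζ ^ (n + 3)) := by
  obtain ⟨C1, hC10, hC1⟩ := KH_bound h4 G hf
  obtain ⟨C2, hC20, hC2⟩ := PhiLow G (A := 2 ^ (4 * (n + 3))) D.s1 D.s2
    (one_le_pow₀ (by norm_num))
  refine ⟨C1 * C2 ^ (n + 3), by positivity, ?_⟩
  intro z hz ζ hζ s hs1 hs2
  have hR := G.R1pos
  have hT := T_pos G D hz
  have hz1 := U1_R1 G hz
  have hs0 : 0 ≤ s := le_trans (le_min (tt_nonneg D ζ) hT.le) hs1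
  have h1 := hC2 z ζ (tt s₀ F z) s (U1_norm hz) hζ hT.le (tt_le G D (by linarith)) hs0 hs2
    (T_le G D hz hζ hs1) hz.2.le
  change mm r rt ν s₀ F z ζ ≤ _ at h1
  have hm : 0 < mm r rt ν s₀ F z ζ := lt_of_lt_of_le hT (mm_facts G D hz hζ).2.2.2
  have h2 : mm r rt ν s₀ F z ζ / C2 ≤ ‖PhiG (qq rt P (z - (s : ℂ) • ν)) (z - (s : ℂ) • ν) ζ‖ := by
    rw [div_le_iff₀ hC20]; linarith
  have hyc : z - (s : ℂ) • ν ∈ closedBall p R₁ := mem_cb.2 (by
    have := norm_shift' G.nu1 z p hs0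
    have := D.s1; have := G.R01; linarith)
  refine ⟨?_, ?_⟩
  · intro h0
    rw [h0, norm_zero] at h2
    have : 0 < mm r rt ν s₀ F z ζ / C2 := by positivity
    linarith
  · refine (hC1 _ hyc ζ hζ ζ (by have := G.Om_norm hζ; linarith) le_rfl _ (by positivity)
      h2).trans (le_of_eq ?_)
    rw [div_pow]
    field_simp

theorem tt_diff (D : Dat r p R₀ a c s₀ F) (z ζ : En n) :
    |tt s₀ F ζ - tt s₀ F z| ≤
      s₀ * (‖ζ - z‖ * (4 * (n + 3) + 1 : ℕ) * (infDist z F + ‖ζ - z‖) ^ (4 * (n + 3))) := by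
  unfold tt
  rw [← mul_sub, abs_mul, abs_of_pos D.s0]
  have hs := D.s0
  gcongr
  refine (abs_pow_sub_pow_le _ _ _).trans ?_
  rw [Nat.add_sub_cancel]
  have h1 : infDist ζ F ≤ infDist z F + ‖ζ - z‖ := by
    have := infDist_le_infDist_add_dist (x := ζ) (y := z) (s := F)
    rwa [dist_eq_norm] at this
  have h2 : infDist z F ≤ infDist ζ F + ‖ζ - z‖ := by
    have := infDist_le_infDist_add_dist (x := z) (y := ζ) (s := F)
    rwa [dist_eq_norm, norm_sub_rev] at this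
  have h3 : |infDist ζ F - infDist z F| ≤ ‖ζ - z‖ := abs_le.2 ⟨by linarith, by linarith⟩
  have h4 : max |infDist ζ F| |infDist z F| ≤ infDist z F + ‖ζ - z‖ := by
    rw [abs_of_nonneg infDist_nonneg, abs_of_nonneg infDist_nonneg]
    exact max_le h1 (by have := norm_nonneg (ζ - z); linarith)
  gcongr

theorem PW (h4 : T4a) (G : Geo r rt p ν P j₀ R₀ R₁ a c M) (hf : Fn r f)
    (D : Dat r p R₀ a c s₀ F) : ∃ C₁ C₂ : ℝ, 0 ≤ C₁ ∧ 0 ≤ C₂ ∧
      ∀ z ∈ U1 r p R₀ a c s₀ F, ∀ ζ ∈ Om rt p R₁,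
      |tt s₀ F ζ - tt s₀ F z| * (uu f ζ * (-r ζ) / mm r rt ν s₀ F z ζ ^ (n + 3)) ≤
        C₁ + C₂ / infDist z F * uu f (z - (tt s₀ F z : ℂ) • ν) *
          {ζ | NN (lv r z) z ζ < (infDist z F ^ 2) ^ 2}.indicator
            (fun ζ => ‖ζ - z‖ / (NN (lv r z) z ζ) ^ (n + 1)) ζ := by
  obtain ⟨C1, hC10, hC1⟩ := B1 h4 G hf
  obtain ⟨C2, m₀, hC20, hm₀, hC2⟩ := B2 h4 G hf
  have hR0 := G.R0
  have hR1 := G.R1pos
  have ha := G.a0
  have hs0 := D.s0
  have hs1 := s0_le G D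
  set m₁ := min m₀ ((R₀ / 2) ^ 2) with hm₁
  have hm10 : 0 < m₁ := lt_min hm₀ (by positivity)
  set B : ℝ := (4 * (n + 3) + 1 : ℕ) * 2 ^ (4 * (n + 3)) with hB
  have hB0 : 0 ≤ B := by positivity
  refine ⟨B * C1 + B * (C1 / m₁ ^ (n + 3)), B * C2 * 2 / a, by positivity, by positivity, ?_⟩
  intro z hz ζ hζ
  obtain ⟨f1, f2, f3, f4⟩ := mm_facts G D hz hζ
  have hT := T_pos G D hz
  have hd := d_pos G D hz
  have hz1 := U1_R1 G hz
  have hd1 := d_le G D (x := z) (by linarith)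
  have he1 := e_le G hz hζ
  have hD := tt_diff D z ζ
  have hrζ := G.Om_r hζ
  have hW1 : uu f ζ * (-r ζ) ≤ C1 := hC1 ζ (by have := G.Om_norm hζ; linarith) hrζ
  have hW0 : 0 ≤ uu f ζ * (-r ζ) := mul_nonneg (hf.u0 hrζ) (by linarith)
  have hsh := (shift_r G D hz le_rfl (tt_le G D (by linarith))).2
  have hu' : 0 ≤ uu f (z - (tt s₀ F z : ℂ) • ν) := hf.u0 (by
    have : 0 < a / 2 * tt s₀ F z := by positivity
    linarith)
  set m := mm r rt ν s₀ F z ζ with hm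
  set d := infDist z F with hdd
  set e := ‖ζ - z‖ with he
  set W := uu f ζ * (-r ζ) with hW
  set u' := uu f (z - (tt s₀ F z : ℂ) • ν) with hu'd
  set N := NN (lv r z) z ζ with hN
  set Dd := |tt s₀ F ζ - tt s₀ F z| with hDd
  have hm0 : 0 < m := lt_of_lt_of_le hT f4
  have he0 : 0 ≤ e := norm_nonneg _
  have heN : e ^ 2 ≤ N := by
    rw [hN, NN_eq]
    have := norm_nonneg (ell r z (ζ - z))
    linarith
  have hlN : ‖ell r z (ζ - z)‖ ≤ N := by
    rw [hN, NN_eq]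
    have : 0 ≤ ‖ζ - z‖ ^ 2 := by positivity
    linarith
  have hind : 0 ≤ {ζ | NN (lv r z) z ζ < (d ^ 2) ^ 2}.indicator
      (fun ζ => ‖ζ - z‖ / (NN (lv r z) z ζ) ^ (n + 1)) ζ := by
    apply indicator_nonneg
    intro x _
    have : 0 ≤ NN (lv r z) z x := by unfold NN; positivity
    positivity
  have hrest : 0 ≤ B * C2 * 2 / a / d * u' * {ζ | NN (lv r z) z ζ < (d ^ 2) ^ 2}.indicator
      (fun ζ => ‖ζ - z‖ / (NN (lv r z) z ζ) ^ (n + 1)) ζ := by positivity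
  have hDx : ∀ x : ℝ, 0 ≤ x → d + e ≤ 2 * x → Dd ≤ s₀ * (e * (B * x ^ (4 * (n + 3)))) := by
    intro x hx hde
    refine hD.trans ?_
    have : (d + e) ^ (4 * (n + 3)) ≤ (2 * x) ^ (4 * (n + 3)) := by gcongr
    rw [mul_pow] at this
    calc s₀ * (e * (4 * (n + 3) + 1 : ℕ) * (d + e) ^ (4 * (n + 3)))
        ≤ s₀ * (e * (4 * (n + 3) + 1 : ℕ) * (2 ^ (4 * (n + 3)) * x ^ (4 * (n + 3)))) := by gcongr
      _ = _ := by rw [hB]; ring
  have hDx' : ∀ x : ℝ, 0 ≤ x → d + e ≤ 2 * x → Dd ≤ B * x ^ (4 * (n + 3)) := by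
    intro x hx hde
    refine (hDx x hx hde).trans ?_
    calc s₀ * (e * (B * x ^ (4 * (n + 3)))) ≤ 1 * (1 * (B * x ^ (4 * (n + 3)))) := by gcongr
      _ = _ := by ring
  have hfin : ∀ x : ℝ, 0 ≤ x → d + e ≤ 2 * x → x ^ 4 ≤ m →
      Dd * (W / m ^ (n + 3)) ≤ B * C1 := by
    intro x hx hde hxm
    have h1 : Dd ≤ B * m ^ (n + 3) := by
      refine (hDx' x hx hde).trans ?_
      rw [pow_mul]
      gcongr
    calc Dd * (W / m ^ (n + 3)) ≤ B * m ^ (n + 3) * (C1 / m ^ (n + 3)) := by gcongr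
      _ = B * C1 := by field_simp
  have hp1 : 0 ≤ B * (C1 / m₁ ^ (n + 3)) := by positivity
  have hp2 : 0 ≤ B * C1 := by positivity
  by_cases c1 : d ≤ e
  · have := hfin e he0 (by linarith) (by
      have : e ^ 4 ≤ e ^ 2 := pow_le_pow_of_le_one he0 he1 (by norm_num)
      linarith)
    linarith
  push Not at c1
  by_cases c2 : d ^ 4 ≤ m
  · have := hfin d hd.le (by linarith) c2
    linarith
  push Not at c2
  by_cases c3 : m₁ ≤ m
  · have h1 := hDx' 1 zero_le_one (by linarith)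
    rw [one_pow, mul_one] at h1
    have : Dd * (W / m ^ (n + 3)) ≤ B * (C1 / m₁ ^ (n + 3)) := by gcongr
    linarith
  push Not at c3
  have c4 : m ≤ m₀ := c3.le.trans (min_le_left _ _)
  have c5 : m < (R₀ / 2) ^ 2 := lt_of_lt_of_le c3 (min_le_right _ _)
  have c6 : e < R₀ / 2 := lt_of_pow_lt_pow_left₀ 2 (by positivity) (by linarith)
  have c7 : rt ζ = r ζ := by
    apply G.eq
    rw [mem_ball, dist_eq_norm]
    have : ζ - p = (ζ - z) + (z - p) := by abel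
    rw [this]
    refine lt_of_le_of_lt (norm_add_le _ _) ?_
    have := U1_norm hz
    linarith
  have key := hC2 z ζ (tt s₀ F z) m (U1_norm hz).le hT (by
      have h1 := hz.2
      have h2 : th n a c * tt s₀ F z ≤ a / 2 * tt s₀ F z := by
        have := th_le G
        gcongr
      linarith) hrζ f1 (by
      have := tt_le G D (x := z) (by linarith)
      have := D.s1; have := G.R01; linarith) (by rw [← c7]; exact f2) (by linarith)
      (by linarith) c4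
  have hmem : ζ ∈ {ζ | NN (lv r z) z ζ < (d ^ 2) ^ 2} := by
    show N < (d ^ 2) ^ 2
    have : (d ^ 2) ^ 2 = d ^ 4 := by ring
    linarith
  rw [indicator_of_mem hmem]
  have hTd : tt s₀ F z = s₀ * (d ^ (4 * (n + 3)) * d) := by
    unfold tt; rw [pow_succ]
  have hWb : W ≤ C2 * m ^ 2 * u' / (a / 2 * tt s₀ F z) := by
    rw [le_div_iff₀ (by positivity)]
    refine le_trans ?_ key
    gcongr
    linarith
  have h1 := hDx d hd.le (by linarith)
  have h2 : Dd * (W / m ^ (n + 3)) ≤ B * C2 * 2 / a / d * u' * (e / m ^ (n + 1)) := by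
    calc Dd * (W / m ^ (n + 3)) ≤ s₀ * (e * (B * d ^ (4 * (n + 3)))) *
          (C2 * m ^ 2 * u' / (a / 2 * tt s₀ F z) / m ^ (n + 3)) := by gcongr
      _ = _ := by
          rw [hTd]
          field_simp
          ring
  have h3 : e / m ^ (n + 1) ≤ e / N ^ (n + 1) := by
    rcases he0.eq_or_lt with h0 | h0
    · rw [← h0]; simp
    · have : 0 < N := lt_of_lt_of_le (by positivity) heN
      gcongr
  have h5 : B * C2 * 2 / a / d * u' * (e / m ^ (n + 1)) ≤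
      B * C2 * 2 / a / d * u' * (e / N ^ (n + 1)) := by gcongr
  linarith

theorem lv_low (G : Geo r rt p ν P j₀ R₀ R₁ a c M) {z : En n} (hz : ‖z - p‖ ≤ R₁) :
    a ≤ ‖lv r z j₀‖ := by
  have h1 : ell r z ν = lv r z j₀ * ν j₀ := by
    unfold ell
    apply Finset.sum_eq_single
    · intro j _ hj
      rw [G.nuj j hj, mul_zero]
    · intro h; exact absurd (Finset.mem_univ _) h
  have h2 := G.dnu z (mem_cb.2 hz)
  rw [← ell_re, h1] at h2
  refine h2.trans ((Complex.re_le_norm _).trans ?_)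
  rw [norm_mul]
  have : ‖ν j₀‖ ≤ 1 := G.nu1 ▸ norm_le_pi_norm ν j₀
  exact mul_le_of_le_one_right (norm_nonneg _) this

/-- the error estimate -/
theorem ERR (h4 : T4a) (h5 : T5) (G : Geo r rt p ν P j₀ R₀ R₁ a c M) (hf : Fn r f)
    (D : Dat r p R₀ a c s₀ F) (A η : ℝ) (hA : 0 ≤ A) (hη : 0 < η) : ∃ C : ℝ,
      ∀ z ∈ U1 r p R₀ a c s₀ F, ∀ g : En n → ℂ, (∀ ζ ∈ Om rt p R₁, ‖g ζ‖ ≤
        A * (|tt s₀ F ζ - tt s₀ F z| * (uu f ζ * (-r ζ) / mm r rt ν s₀ F z ζ ^ (n + 3)))) →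
      ‖∫ ζ in Om rt p R₁, g ζ‖ ≤ η * uu f (z - (tt s₀ F z : ℂ) • ν) + C := by
  obtain ⟨C1, C2, hC1, hC2, hP⟩ := PW h4 G hf D
  obtain ⟨C5, hC5, h5'⟩ := h5 n
  obtain ⟨C3, hC30, hC3⟩ := B1 h4 G hf
  have ha := G.a0
  have hR1 := G.R1pos
  have hs0 := D.s0
  have := Om_fin (rt := rt) (p := p) (R₁ := R₁)
  set V := (volume.restrict (Om rt p R₁)).real univ with hV
  set Q := A * C2 * (C5 / a ^ 2) with hQ
  have hQ0 : 0 ≤ Q := by positivity
  set d₀ := η / (Q + 1) with hd₀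
  have hd0 : 0 < d₀ := by positivity
  refine ⟨A * C1 * V + Q * (C3 / (a / 2 * (s₀ * d₀ ^ (4 * (n + 3) + 1)))), ?_⟩
  intro z hz g hg
  have hd := d_pos G D hz
  have hz1 := U1_R1 G hz
  have hd1 := d_le G D (x := z) (by linarith)
  have hT := T_pos G D hz
  obtain ⟨hsh0, hsh⟩ := shift_r G D hz le_rfl (tt_le G D (by linarith))
  have hrz' : r (z - (tt s₀ F z : ℂ) • ν) < 0 := by
    have : 0 < a / 2 * tt s₀ F z := by positivity
    linarith
  have hu' : 0 ≤ uu f (z - (tt s₀ F z : ℂ) • ν) := hf.u0 hrz'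
  obtain ⟨i1, i2⟩ := h5' (lv r z) j₀ a ha (lv_low G (by linarith)) z (infDist z F ^ 2)
    (by positivity)
  set u' := uu f (z - (tt s₀ F z : ℂ) • ν) with hu'd
  set d := infDist z F with hdd
  set S := {ζ | NN (lv r z) z ζ < (d ^ 2) ^ 2} with hS
  set φ := fun ζ => ‖ζ - z‖ / (NN (lv r z) z ζ) ^ (n + 1) with hφ
  have hSm : MeasurableSet S := by
    apply IsOpen.measurableSet
    apply isOpen_lt _ continuous_const
    unfold NN
    fun_prop
  have hφ0 : ∀ x, 0 ≤ S.indicator φ x := by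
    intro x
    apply indicator_nonneg
    intro x _
    have : 0 ≤ NN (lv r z) z x := by unfold NN; positivity
    simp only [hφ]
    positivity
  have hi : Integrable (S.indicator φ) := (integrable_indicator_iff hSm).2 i1
  have hb : Integrable (fun ζ => A * (C1 + C2 / d * u' * S.indicator φ ζ))
      (volume.restrict (Om rt p R₁)) :=
    ((integrable_const C1).add (hi.integrableOn.const_mul _)).const_mul A
  have h1 : ‖∫ ζ in Om rt p R₁, g ζ‖ ≤
      ∫ ζ in Om rt p R₁, A * (C1 + C2 / d * u' * S.indicator φ ζ) := by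
    apply norm_integral_le_of_norm_le hb
    rw [ae_restrict_iff' G.Om_open.measurableSet]
    refine Eventually.of_forall fun ζ hζ => (hg ζ hζ).trans ?_
    exact mul_le_mul_of_nonneg_left (hP z hz ζ hζ) hA
  have h2 : ∫ ζ in Om rt p R₁, S.indicator φ ζ ≤ C5 / a ^ 2 * d ^ 2 := by
    refine (setIntegral_le_integral hi (Eventually.of_forall hφ0)).trans ?_
    rw [integral_indicator hSm]
    exact i2
  rw [integral_const_mul, integral_add (integrable_const C1) (hi.integrableOn.const_mul _),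
    integral_const, integral_const_mul, smul_eq_mul] at h1
  have h3 : A * (V * C1 + C2 / d * u' * ∫ ζ in Om rt p R₁, S.indicator φ ζ) ≤
      A * C1 * V + Q * d * u' := by
    calc _ ≤ A * (V * C1 + C2 / d * u' * (C5 / a ^ 2 * d ^ 2)) := by gcongr
      _ = _ := by rw [hQ]; field_simp
  have h6 : Q * d * u' ≤ η * u' + Q * (C3 / (a / 2 * (s₀ * d₀ ^ (4 * (n + 3) + 1)))) := by
    by_cases c1 : d ≤ d₀
    · have e1 : Q * d ≤ η := by
        calc Q * d ≤ (Q + 1) * d₀ := by gcongr; linarith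
          _ = η := by rw [hd₀]; field_simp
      have : 0 ≤ Q * (C3 / (a / 2 * (s₀ * d₀ ^ (4 * (n + 3) + 1)))) := by positivity
      have : Q * d * u' ≤ η * u' := by gcongr
      linarith
    · push Not at c1
      have e1 := hC3 _ (by have := G.R01; have := G.R0; linarith) hrz'
      have e2 : a / 2 * (s₀ * d₀ ^ (4 * (n + 3) + 1)) ≤ -r (z - (tt s₀ F z : ℂ) • ν) := by
        have : s₀ * d₀ ^ (4 * (n + 3) + 1) ≤ tt s₀ F z := by
          unfold tt; gcongr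
        have : a / 2 * (s₀ * d₀ ^ (4 * (n + 3) + 1)) ≤ a / 2 * tt s₀ F z := by gcongr
        linarith
      have e3 : u' ≤ C3 / (a / 2 * (s₀ * d₀ ^ (4 * (n + 3) + 1))) := by
        rw [le_div_iff₀ (by positivity)]
        exact le_trans (by gcongr) e1
      have e4 : Q * d * u' ≤ Q * 1 * (C3 / (a / 2 * (s₀ * d₀ ^ (4 * (n + 3) + 1)))) := by gcongr
      have : 0 ≤ η * u' := by positivity
      linarith
  linarith

end Pool.Agent.H922Z.NU
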