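import Pool.Agent.H922Z.NU.L5

set_option autoImplicit false

open MeasureTheory Complex Metric Set Filter Topology
open scoped ContDiff ComplexConjugate

namespace Pool.Agent.H922Z.NU

open BK

variable {n : ℕ} {r rt : En n → ℝ} {p ν : En n} {P : Fin n → Fin n → ℂ} {j₀ : Fin n}
  {R₀ R₁ a c M s₀ : ℝ} {f : En n → ℂ} {F : Set (En n)}

theorem dlog {g : ℝ → ℂ} {g' : ℂ} {s : ℝ} (hg : HasDerivAt g g' s) (h0 : g s ≠ 0) :
    HasDerivAt (fun s => Real.log ‖g s‖) ((g' / g s).re) s := by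
  have hre : HasDerivAt (fun s => (g s).re) g'.re s :=
    Complex.reCLM.hasFDerivAt.comp_hasDerivAt s hg
  have him : HasDerivAt (fun s => (g s).im) g'.im s :=
    Complex.imCLM.hasFDerivAt.comp_hasDerivAt s hg
  have hn : (g s).re * (g s).re + (g s).im * (g s).im ≠ 0 := by
    rw [← Complex.normSq_apply]
    exact (Complex.normSq_pos.2 h0).ne'
  have h := (((hre.fun_mul hre).fun_add (him.fun_mul him)).log hn).const_mul (1 / 2 : ℝ)
  have e1 : (fun s => Real.log ‖g s‖) =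
      fun y => 1 / 2 * Real.log ((g y).re * (g y).re + (g y).im * (g y).im) := by
    funext t
    rw [← Complex.normSq_apply, ← Complex.sq_norm, Real.log_pow]
    ring
  have e2 : (g' / g s).re = 1 / 2 *
      ((g'.re * (g s).re + (g s).re * g'.re + (g'.im * (g s).im + (g s).im * g'.im)) /
        ((g s).re * (g s).re + (g s).im * (g s).im)) := by
    rw [Complex.div_re, Complex.normSq_apply]
    field_simp
    ring
  rw [e1, e2]
  exact h

theorem ftc (G : Geo r rt p ν P j₀ R₀ R₁ a c M) (hf : Fn r f) (z : En n) {T s₀ : ℝ}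
    (hT : T ≤ s₀) (hin : ∀ s ∈ Icc T s₀, r (z - (s : ℂ) • ν) < 0) :
    (∫ s in T..s₀, hh f ν (z - (s : ℂ) • ν)).re =
      uu f (z - (T : ℂ) • ν) - uu f (z - (s₀ : ℂ) • ν) := by
  have hc : ContinuousOn (fun s : ℝ => hh f ν (z - (s : ℂ) • ν)) (uIcc T s₀) := by
    rw [uIcc_of_le hT]
    exact (hh_diff G hf).continuousOn.comp (by fun_prop) hin
  have h1 := Complex.reCLM.intervalIntegral_comp_comm (hc.intervalIntegrable (μ := volume))
  simp only [Complex.reCLM_apply] at h1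
  rw [← h1]
  have hder : ∀ s ∈ uIcc T s₀, HasDerivAt (fun s : ℝ => Real.log ‖f (z - (s : ℂ) • ν)‖)
      ((hh f ν (z - (s : ℂ) • ν)).re) s := by
    intro s hs
    rw [uIcc_of_le hT] at hs
    have h2 : HasDerivAt (fun t : ℝ => z - (t : ℂ) • ν) (-ν) s := by
      have h3 : HasDerivAt (fun t : ℝ => (t : ℂ) • ν) ν s := by
        have := (Complex.ofRealCLM.hasDerivAt (x := s)).smul_const ν
        simpa using this
      simpa using h3.const_sub z
    have h4 : HasFDerivAt f (fderiv ℂ f (z - (s : ℂ) • ν)) (z - (s : ℂ) • ν) :=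
      ((hf.df _ (hin s hs)).differentiableAt (G.open.mem_nhds (hin s hs))).hasFDerivAt
    have h5 := (h4.restrictScalars ℝ).comp_hasDerivAt s h2
    have h6 := dlog h5 (hf.ne _ (hin s hs))
    have e : hh f ν (z - (s : ℂ) • ν) =
        (ContinuousLinearMap.restrictScalars ℝ (fderiv ℂ f (z - (s : ℂ) • ν))) (-ν) /
          (f ∘ fun t : ℝ => z - (t : ℂ) • ν) s := by
      unfold hh
      rw [map_neg, neg_div]
      rfl
    rw [e]
    exact h6
  rw [intervalIntegral.integral_eq_sub_of_hasDerivAt hder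
    ((Complex.continuous_re.comp_continuousOn hc).intervalIntegrable)]
  unfold uu
  ring

/-- the integrand with a general lower limit -/
noncomputable def kk (rt : En n → ℝ) (P : Fin n → Fin n → ℂ) (ν : En n) (f : En n → ℂ)
    (t : En n → ℝ) (z : En n) (x : En n × ℝ) : ℂ :=
  {x : En n × ℝ | t x.1 < x.2}.indicator
    (fun x => KK rt P (z - (x.2 : ℂ) • ν) x.1 * hh f ν x.1) x

/-- the measure -/
noncomputable def mu (rt : En n → ℝ) (p : En n) (R₁ s₀ : ℝ) : Measure (En n × ℝ) :=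
  ((volume : Measure (En n)).restrict (Om rt p R₁)).prod
    ((volume : Measure ℝ).restrict (Ioc 0 s₀))

theorem mu_fin : IsFiniteMeasure (mu rt p R₁ s₀) := by
  have := Om_fin (rt := rt) (p := p) (R₁ := R₁)
  unfold mu
  infer_instance

theorem mu_ae (G : Geo r rt p ν P j₀ R₀ R₁ a c M) :
    ∀ᵐ x ∂(mu rt p R₁ s₀), x.1 ∈ Om rt p R₁ ∧ x.2 ∈ Ioc 0 s₀ := by
  unfold mu
  rw [Measure.prod_restrict]
  exact ae_restrict_mem (G.Om_open.measurableSet.prod measurableSet_Ioc)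

theorem kk_meas (G : Geo r rt p ν P j₀ R₀ R₁ a c M) (hf : Fn r f) {t : En n → ℝ}
    (ht : Continuous t) (z : En n) :
    AEStronglyMeasurable (kk rt P ν f t z) (mu rt p R₁ s₀) := by
  apply AEStronglyMeasurable.indicator
  · apply AEStronglyMeasurable.mul
    · have h1 : Continuous (fun x : En n × ℝ => (z - (x.2 : ℂ) • ν, x.1)) := by fun_prop
      exact ((KK_meas G.srt P).comp h1.measurable).aestronglyMeasurable
    · have h1 : AEStronglyMeasurable (hh f ν) (volume.restrict (Om rt p R₁)) :=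
        ((hh_diff G hf).continuousOn.mono (fun x hx => G.Om_r hx)).aestronglyMeasurable
          G.Om_open.measurableSet
      exact h1.comp_fst
  · exact (isOpen_lt (ht.comp continuous_fst) continuous_snd).measurableSet

theorem kk_bound (h4a : T4a) (h4b : T4b) (G : Geo r rt p ν P j₀ R₀ R₁ a c M) (hf : Fn r f)
    (D : Dat r p R₀ a c s₀ F) {δ : ℝ} (hδ : 0 < δ) : ∃ C : ℝ, ∀ z ∈ U1 r p R₀ a c s₀ F,
      δ ≤ infDist z F → ∀ t : En n → ℝ, (∀ ζ, min (tt s₀ F ζ) (tt s₀ F z) ≤ t ζ) →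
      ∀ x : En n × ℝ, x.1 ∈ Om rt p R₁ → x.2 ∈ Ioc 0 s₀ → ‖kk rt P ν f t z x‖ ≤ C := by
  obtain ⟨C1, hC10, hC1⟩ := B1 h4a G hf
  obtain ⟨C2, hC20, hC2⟩ := KH2 h4b G hf D
  have hs0 := D.s0
  have hR := G.R1pos
  refine ⟨C2 * (C1 / (s₀ * δ ^ (4 * (n + 3) + 1)) ^ (n + 3)), ?_⟩
  intro z hz hd t ht x hx1 hx2
  unfold kk
  by_cases hx : x ∈ {x : En n × ℝ | t x.1 < x.2}
  · rw [indicator_of_mem hx]
    refine (hC2 z hz x.1 hx1 x.2 ((ht _).trans (le_of_lt hx)) hx2.2).2.trans ?_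
    have e1 := hC1 x.1 (by have := G.Om_norm hx1; linarith) (G.Om_r hx1)
    have e2 : s₀ * δ ^ (4 * (n + 3) + 1) ≤ mm r rt ν s₀ F z x.1 := by
      refine le_trans ?_ (mm_facts G D hz hx1).2.2.2
      unfold tt; gcongr
    gcongr
  · rw [indicator_of_notMem hx, norm_zero]
    positivity

theorem kk_int (h4a : T4a) (h4b : T4b) (G : Geo r rt p ν P j₀ R₀ R₁ a c M) (hf : Fn r f)
    (D : Dat r p R₀ a c s₀ F) {z : En n} (hz : z ∈ U1 r p R₀ a c s₀ F) {t : En n → ℝ}
    (htc : Continuous t) (ht : ∀ ζ, min (tt s₀ F ζ) (tt s₀ F z) ≤ t ζ) :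
    Integrable (kk rt P ν f t z) (mu rt p R₁ s₀) := by
  obtain ⟨C, hC⟩ := kk_bound h4a h4b G hf D (d_pos G D hz)
  have := mu_fin (rt := rt) (p := p) (R₁ := R₁) (s₀ := s₀)
  refine Integrable.of_bound (kk_meas G hf htc z) C ?_
  filter_upwards [mu_ae G] with x hx using hC z hz le_rfl t ht x hx.1 hx.2

theorem U1_open (G : Geo r rt p ν P j₀ R₀ R₁ a c M) : IsOpen (U1 r p R₀ a c s₀ F) :=
  isOpen_ball.inter (isOpen_lt G.sr.continuous (continuous_const.mul (tt_cont s₀ F)))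

theorem HH_diff (h4a : T4a) (h4b : T4b) (h6 : T6) (G : Geo r rt p ν P j₀ R₀ R₁ a c M)
    (hf : Fn r f) (D : Dat r p R₀ a c s₀ F) :
    DifferentiableOn ℂ (fun z => ∫ x, kk rt P ν f (tt s₀ F) z x ∂(mu rt p R₁ s₀))
      (U1 r p R₀ a c s₀ F) := by
  intro z₀ hz₀
  have hd := d_pos G D hz₀
  obtain ⟨C, hC⟩ := kk_bound h4a h4b G hf D (half_pos hd)
  obtain ⟨C2, hC20, hC2⟩ := KH2 h4b G hf D
  have := mu_fin (rt := rt) (p := p) (R₁ := R₁) (s₀ := s₀)
  have ho : IsOpen (U1 r p R₀ a c s₀ F ∩ {z | infDist z₀ F / 2 < infDist z F}) :=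
    (U1_open G).inter (isOpen_lt continuous_const (continuous_infDist_pt F))
  have key := h6 n (En n × ℝ) (mu rt p R₁ s₀) _ (kk rt P ν f (tt s₀ F)) C ho
    (fun z _ => kk_meas G hf (tt_cont s₀ F) z) (by
      filter_upwards [mu_ae G] with x hx
      refine ⟨?_, fun z hz => hC z hz.1 (le_of_lt hz.2) _ (fun ζ => min_le_left _ _) x hx.1 hx.2⟩
      unfold kk
      by_cases hx' : x ∈ {x : En n × ℝ | tt s₀ F x.1 < x.2}
      · simp only [indicator_of_mem hx']
        intro z hz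
        apply DifferentiableAt.differentiableWithinAt
        apply DifferentiableAt.mul_const
        have h1 := KK_hol rt P x.1 _
          (hC2 z hz.1 x.1 hx.1 x.2 ((min_le_left _ _).trans (le_of_lt hx')) hx.2.2).1
        exact h1.comp z (f := fun z : En n => z - (x.2 : ℂ) • ν) (by fun_prop)
      · simp only [indicator_of_notMem hx']
        exact differentiableOn_const _)
  exact (key.differentiableAt (ho.mem_nhds ⟨hz₀, by
    show infDist z₀ F / 2 < infDist z₀ F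
    linarith⟩)).differentiableWithinAt

theorem main_term (h4a : T4a) (h4b : T4b) (G : Geo r rt p ν P j₀ R₀ R₁ a c M) (hf : Fn r f)
    (D : Dat r p R₀ a c s₀ F) {c3 : ℂ}
    (hRF : ∀ y : En n, ‖y - p‖ < R₀ → r y < 0 →
      ∫ ζ in Om rt p R₁, KK rt P y ζ * hh f ν ζ = c3 * hh f ν y)
    {z : En n} (hz : z ∈ U1 r p R₀ a c s₀ F) :
    ∫ x, kk rt P ν f (fun _ => tt s₀ F z) z x ∂(mu rt p R₁ s₀) =
      c3 * ∫ s in (tt s₀ F z)..s₀, hh f ν (z - (s : ℂ) • ν) := by
  have hi := kk_int h4a h4b G hf D hz (t := fun _ => tt s₀ F z) continuous_const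
    (fun ζ => min_le_right _ _)
  have hT := T_pos G D hz
  have hR := G.R1pos
  have ha := G.a0
  have hT1 : tt s₀ F z ≤ s₀ := tt_le G D (by have := U1_R1 G hz; linarith)
  unfold mu at hi ⊢
  rw [integral_prod_symm _ hi, intervalIntegral.integral_of_le hT1, ← integral_const_mul]
  have e1 : Ioc (tt s₀ F z) s₀ = Ioc 0 s₀ ∩ Ioi (tt s₀ F z) := by
    ext s
    simp only [mem_Ioc, mem_inter_iff, mem_Ioi]
    constructor
    · rintro ⟨h1, h2⟩; exact ⟨⟨by linarith, h2⟩, h1⟩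
    · rintro ⟨⟨_, h2⟩, h3⟩; exact ⟨h3, h2⟩
  rw [e1, ← setIntegral_indicator measurableSet_Ioi]
  refine setIntegral_congr_fun measurableSet_Ioc fun s hs => ?_
  by_cases h : tt s₀ F z < s
  · rw [indicator_of_mem (show s ∈ Ioi (tt s₀ F z) from h)]
    obtain ⟨k1, k2⟩ := shift_r G D hz h.le hs.2
    rw [← hRF _ k1 (by
      have : 0 < a / 2 * s := by have := hs.1; positivity
      linarith)]
    refine integral_congr_ae (Eventually.of_forall fun ζ => ?_)
    exact indicator_of_mem (s := {x : En n × ℝ | tt s₀ F z < x.2}) (a := (ζ, s)) h _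
  · rw [indicator_of_notMem (show s ∉ Ioi (tt s₀ F z) from h)]
    have : ∀ ζ, kk rt P ν f (fun _ => tt s₀ F z) z (ζ, s) = 0 := fun ζ =>
      indicator_of_notMem (s := {x : En n × ℝ | tt s₀ F z < x.2}) (a := (ζ, s)) h _
    simp [this]

theorem err_term (h4b : T4b) (G : Geo r rt p ν P j₀ R₀ R₁ a c M) (hf : Fn r f)
    (D : Dat r p R₀ a c s₀ F) : ∃ A : ℝ, 0 ≤ A ∧ ∀ z ∈ U1 r p R₀ a c s₀ F, ∀ ζ ∈ Om rt p R₁,
      ‖∫ s in Ioc 0 s₀, (kk rt P ν f (tt s₀ F) z (ζ, s) -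
        kk rt P ν f (fun _ => tt s₀ F z) z (ζ, s))‖ ≤
      A * (|tt s₀ F ζ - tt s₀ F z| * (uu f ζ * (-r ζ) / mm r rt ν s₀ F z ζ ^ (n + 3))) := by
  obtain ⟨C, hC0, hC⟩ := KH2 h4b G hf D
  refine ⟨C, hC0, ?_⟩
  intro z hz ζ hζ
  set B := C * (uu f ζ * (-r ζ) / mm r rt ν s₀ F z ζ ^ (n + 3)) with hB
  have hrζ := G.Om_r hζ
  have hB0 : 0 ≤ B := by
    have h1 : 0 ≤ uu f ζ * (-r ζ) := mul_nonneg (hf.u0 hrζ) (by linarith)
    have h2 : 0 < mm r rt ν s₀ F z ζ := lt_of_lt_of_le (T_pos G D hz) (mm_facts G D hz hζ).2.2.2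
    positivity
  set t₁ := tt s₀ F ζ
  set t₂ := tt s₀ F z
  have hi : Integrable ((Ioc (min t₁ t₂) (max t₁ t₂)).indicator (fun _ : ℝ => B)) :=
    (integrable_indicator_iff measurableSet_Ioc).2 (integrableOn_const (by simp))
  have h1 : ‖∫ s in Ioc 0 s₀, (kk rt P ν f (tt s₀ F) z (ζ, s) -
      kk rt P ν f (fun _ => tt s₀ F z) z (ζ, s))‖ ≤
      ∫ s in Ioc 0 s₀, (Ioc (min t₁ t₂) (max t₁ t₂)).indicator (fun _ : ℝ => B) s := by
    apply norm_integral_le_of_norm_le hi.integrableOn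
    rw [ae_restrict_iff' measurableSet_Ioc]
    refine Eventually.of_forall fun s hs => ?_
    have e1 : kk rt P ν f (tt s₀ F) z (ζ, s) =
        if t₁ < s then KK rt P (z - (s : ℂ) • ν) ζ * hh f ν ζ else 0 := by
      unfold kk; rw [indicator_apply]; rfl
    have e2 : kk rt P ν f (fun _ => tt s₀ F z) z (ζ, s) =
        if t₂ < s then KK rt P (z - (s : ℂ) • ν) ζ * hh f ν ζ else 0 := by
      unfold kk; rw [indicator_apply]; rfl
    have h0 : 0 ≤ (Ioc (min t₁ t₂) (max t₁ t₂)).indicator (fun _ : ℝ => B) s :=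
      indicator_nonneg (fun _ _ => hB0) s
    rw [e1, e2]
    by_cases c1 : t₁ < s <;> by_cases c2 : t₂ < s
    · simpa [c1, c2] using h0
    · rw [if_pos c1, if_neg c2, sub_zero, indicator_of_mem (show s ∈ Ioc _ _ from
        ⟨min_lt_iff.2 (Or.inl c1), le_max_iff.2 (Or.inr (not_lt.1 c2))⟩)]
      exact (hC z hz ζ hζ s ((min_le_left _ _).trans c1.le) hs.2).2
    · rw [if_neg c1, if_pos c2, zero_sub, norm_neg, indicator_of_mem (show s ∈ Ioc _ _ from
        ⟨min_lt_iff.2 (Or.inr c2), le_max_iff.2 (Or.inl (not_lt.1 c1))⟩)]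
      exact (hC z hz ζ hζ s ((min_le_right _ _).trans c2.le) hs.2).2
    · simpa [c1, c2] using h0
  refine h1.trans ((setIntegral_le_integral hi (Eventually.of_forall fun s =>
    indicator_nonneg (fun _ _ => hB0) s)).trans (le_of_eq ?_))
  rw [integral_indicator measurableSet_Ioc, setIntegral_const, Real.volume_real_Ioc,
    max_eq_left (sub_nonneg.2 min_le_max), max_sub_min_eq_abs, abs_sub_comm, smul_eq_mul, hB]
  ring

theorem localH (h3 : T3) (h4a : T4a) (h4b : T4b) (h5 : T5) (h6 : T6) (h7 : T7) : LocalH := by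
  intro n r hr p hp hd hL
  obtain ⟨rt, ν, P, j₀, R₀, R₁, a, c, M, G⟩ := h7 n r hr p hp hd hL
  obtain ⟨c3, hc3, h3'⟩ := h3 n
  have hR0 := G.R0
  have hR1 := G.R1pos
  have ha := G.a0
  have hc := G.c0
  refine ⟨R₀ / 2, by positivity, ?_⟩
  intro F hF hFs hFr f hf1 hf2 hf3
  have hf : Fn r f := ⟨hf1, hf2, hf3⟩
  obtain ⟨s₀, hs₀⟩ : ∃ s₀, s₀ = min (R₀ / 2) (a / (2 * c)) := ⟨_, rfl⟩
  have D : Dat r p R₀ a c s₀ F :=
    { s0 := by rw [hs₀]; exact lt_min (by positivity) (by positivity)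
      s1 := by rw [hs₀]; exact min_le_left _ _
      s2 := by
        have : s₀ ≤ a / (2 * c) := by rw [hs₀]; exact min_le_right _ _
        calc c * s₀ ≤ c * (a / (2 * c)) := by gcongr
          _ = a / 2 := by field_simp
      Fne := hF
      Fsub := hFs
      Fr := hFr }
  have hs0 := D.s0
  have hU : ∀ z, z ∈ ball p (R₀ / 2) → r z < th n a c * s₀ * infDist z F ^ (4 * (n + 3) + 1) →
      z ∈ U1 r p R₀ a c s₀ F := fun z h1 h2 => ⟨h1, by unfold tt; rwa [← mul_assoc]⟩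
  obtain ⟨A, hA, hErr⟩ := err_term h4b G hf D
  have hc3n : 0 < ‖c3‖ := norm_pos_iff.2 hc3
  obtain ⟨C1, hC1⟩ := ERR h4a h5 G hf D A (‖c3‖ / 2) hA (by positivity)
  obtain ⟨C2, hC20, hC2⟩ := B1 h4a G hf
  have := mu_fin (rt := rt) (p := p) (R₁ := R₁) (s₀ := s₀)
  refine ⟨th n a c * s₀, 4 * (n + 3) + 1,
    fun z => c3⁻¹ * ∫ x, kk rt P ν f (tt s₀ F) z x ∂(mu rt p R₁ s₀),
    Real.exp (2 * (C2 / (a / 2 * s₀) + C1 / ‖c3‖)), mul_pos (th_pos G) hs0, ?_, ?_, ?_⟩
  · exact ((HH_diff h4a h4b h6 G hf D).const_mul _).mono fun z hz => hU z hz.1 hz.2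
  · intro δ hδ
    obtain ⟨C, hC⟩ := kk_bound h4a h4b G hf D hδ
    refine ⟨‖c3⁻¹‖ * (C * (mu rt p R₁ s₀).real univ), fun z h1 h2 h3 => ?_⟩
    rw [norm_mul]
    gcongr
    apply norm_integral_le_of_norm_le_const
    filter_upwards [mu_ae G] with x hx using
      hC z (hU z h1 h2) h3 _ (fun ζ => min_le_left _ _) x hx.1 hx.2
  · intro z h1 h2
    have hz := hU z h1 h2
    have hz1 := U1_R1 G hz
    have hT := T_pos G D hz
    have hT1 : tt s₀ F z ≤ s₀ := tt_le G D (by linarith)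
    have hin : ∀ s ∈ Icc (tt s₀ F z) s₀, r (z - (s : ℂ) • ν) < 0 := by
      intro s hs
      have := (shift_r G D hz hs.1 hs.2).2
      have h' : 0 < a / 2 * s := by have := hs.1; have : 0 < s := by linarith
                                    positivity
      linarith
    have hrz' := hin _ ⟨le_rfl, hT1⟩
    refine ⟨z - (tt s₀ F z : ℂ) • ν, hrz', ?_, ?_⟩
    · rw [sub_sub_cancel_left, norm_neg, norm_smul, G.nu1, mul_one, Complex.norm_real,
        Real.norm_of_nonneg hT.le]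
      have e1 := d_le G D (x := z) (by linarith)
      have e2 := s0_le G D
      unfold tt
      calc s₀ * infDist z F ^ (4 * (n + 3) + 1) ≤ 1 * infDist z F ^ 1 := by
            have : infDist z F ^ (4 * (n + 3) + 1) ≤ infDist z F ^ 1 :=
              pow_le_pow_of_le_one infDist_nonneg e1 (by omega)
            exact mul_le_mul e2 this (pow_nonneg infDist_nonneg _) zero_le_one
        _ = _ := by ring
    · have i1 := kk_int h4a h4b G hf D hz (tt_cont s₀ F) (fun ζ => min_le_left _ _)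
      have i2 := kk_int h4a h4b G hf D hz (t := fun _ => tt s₀ F z) continuous_const
        (fun ζ => min_le_right _ _)
      have m1 := main_term h4a h4b G hf D (fun y hy hry => RF h4a h4b G hf h3' hy hry) hz
      have m2 := ftc G hf z hT1 hin
      obtain ⟨E, hE⟩ : ∃ E, E = ∫ x, (kk rt P ν f (tt s₀ F) z x -
        kk rt P ν f (fun _ => tt s₀ F z) z x) ∂(mu rt p R₁ s₀) := ⟨_, rfl⟩
      have m3 : ‖E‖ ≤ ‖c3‖ / 2 * uu f (z - (tt s₀ F z : ℂ) • ν) + C1 := by
        have i3 : Integrable (fun x => kk rt P ν f (tt s₀ F) z x -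
          kk rt P ν f (fun _ => tt s₀ F z) z x) (mu rt p R₁ s₀) := i1.sub i2
        rw [hE]
        unfold mu at i3 ⊢
        rw [integral_prod _ i3]
        exact hC1 z hz _ (hErr z hz)
      have m4 : c3⁻¹ * ∫ x, kk rt P ν f (tt s₀ F) z x ∂(mu rt p R₁ s₀) =
          (∫ s in (tt s₀ F z)..s₀, hh f ν (z - (s : ℂ) • ν)) + c3⁻¹ * E := by
        rw [hE, integral_sub i1 i2, m1]
        field_simp
        ring
      have m5 : -(c3⁻¹ * E).re ≤ uu f (z - (tt s₀ F z : ℂ) • ν) / 2 + C1 / ‖c3‖ := by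
        have e1 : -(c3⁻¹ * E).re ≤ ‖c3⁻¹ * E‖ :=
          (neg_le_abs _).trans (Complex.abs_re_le_norm _)
        refine e1.trans ?_
        rw [norm_mul, norm_inv]
        calc ‖c3‖⁻¹ * ‖E‖ ≤ ‖c3‖⁻¹ * (‖c3‖ / 2 * uu f (z - (tt s₀ F z : ℂ) • ν) + C1) := by gcongr
          _ = _ := by field_simp
      have m6 : uu f (z - (s₀ : ℂ) • ν) ≤ C2 / (a / 2 * s₀) := by
        obtain ⟨k1, k2⟩ := shift_r G D hz hT1 le_rfl
        have k3 := hC2 _ (by have := G.R01; linarith) (hin _ ⟨hT1, le_rfl⟩)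
        rw [le_div_iff₀ (by positivity)]
        refine le_trans ?_ k3
        have := hf.u0 (hin _ ⟨hT1, le_rfl⟩)
        gcongr
        linarith
      simp only
      rw [m4, Complex.norm_exp, ← Real.exp_nat_mul]
      have m7 : ‖f (z - (tt s₀ F z : ℂ) • ν)‖ = Real.exp (-uu f (z - (tt s₀ F z : ℂ) • ν)) := by
        unfold uu
        rw [neg_neg, Real.exp_log (norm_pos_iff.2 (hf.ne _ hrz'))]
      rw [m7, ← Real.exp_add]
      apply Real.exp_le_exp.2
      rw [neg_re, add_re, m2]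
      push_cast
      linarith

end Pool.Agent.H922Z.NU
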