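import Pool.Agent.H922Z.NU.L6
import Pool.Agent.H645Z.NU.T1
import Pool.Agent.H367Z.NU.T2
import Pool.Agent.H759Z.NU.T3
import Pool.Agent.H321Z.NU.T4
import Pool.Agent.H177Z.NU.T5
import Pool.Agent.H462Z.NU.T7
import Pool.Agent.H708Z.NU.T8
import Pool.Agent.H155Z.NU.T9
import Pool.Agent.H11Z.NU.T10

set_option autoImplicit false

namespace Pool.Agent.H922Z.NU

theorem core : Core :=
  Pool.Agent.H708Z.NU.t8 Pool.Agent.H645Z.NU.t1 Pool.Agent.H367Z.NU.t2a Pool.Agent.H367Z.NU.t2b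
    (localH Pool.Agent.H759Z.NU.t3 Pool.Agent.H321Z.NU.t4a Pool.Agent.H321Z.NU.t4b
      Pool.Agent.H177Z.NU.t5 Pool.Agent.H321Z.NU.t6 Pool.Agent.H462Z.NU.t7)

theorem final : Final := Pool.Agent.H11Z.NU.t10 core Pool.Agent.H155Z.NU.t9

end Pool.Agent.H922Z.NU
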